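import Pool.Agent.Sx28.HR.Glue

/-!
Entire continuation of a minimal representation.
-/

set_option autoImplicit false

namespace Pool.Agent.Sx28.HR

open Filter Topology Set Metric
open scoped ComplexConjugate

variable {E : Type} [NormedAddCommGroup E] [NormedSpace ℂ E]

lemma IsRep.ext_left {N : ℕ} {p : E → ℝ} {R δ : ℝ} (hR : 0 < R)
    (hδ : 0 < δ) {φ ψ : Fin N → E → ℂ} (h : IsRep p (ball 0 R) φ ψ)
    (hmin : ∀ N' < N, ∀ φ' ψ' : Fin N' → E → ℂ, ¬ IsRep p (ball 0 R) φ' ψ')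
    (hloc : ∀ z' ∈ ball (0 : E) R, ∃ (N' : ℕ) (φ' ψ' : Fin N' → E → ℂ),
      IsRep p (ball z' δ) φ' ψ') (i : Fin N) :
    ∃ F : E → ℂ, DifferentiableOn ℂ F (ball 0 (R + δ)) ∧ ∀ z ∈ ball (0 : E) R, F z = φ i z := by
  refine glue hR hδ fun z' hz' => ?_
  obtain ⟨N', φ', ψ', h'⟩ := hloc z' hz'
  have hO : IsOpen (ball (0 : E) R ∩ ball z' δ) := isOpen_ball.inter isOpen_ball
  have hOc : Convex ℝ (ball (0 : E) R ∩ ball z' δ) := (convex_ball _ _).inter (convex_ball _ _)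
  have hli : LIOn ψ (ball (0 : E) R ∩ ball z' δ) :=
    h.swap.li (fun N' hN' φ' ψ' hh => hmin N' hN' ψ' φ' hh.swap) hO inter_subset_left
      ⟨z', hz', mem_ball_self hδ⟩
  have h1 := h.mono (inter_subset_left : ball (0 : E) R ∩ ball z' δ ⊆ ball 0 R)
  have h2 := h'.mono (inter_subset_right : ball (0 : E) R ∩ ball z' δ ⊆ ball z' δ)
  obtain ⟨U, hU⟩ := span_of_rep hO hOc φ ψ h1.1 h1.2.1 φ' ψ' h2.1 h2.2.1
    (fun z hz => by rw [← h1.2.2 z hz, ← h2.2.2 z hz]) hli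
  refine ⟨fun z => ∑ j, U i j * φ' j z, DifferentiableOn.fun_sum fun j _ =>
    (h'.1 j).const_mul _, fun z hz => (hU i z hz).symm⟩

lemma IsRep.ext {N : ℕ} {p : E → ℝ} (hp : AnalyticOnNhd ℝ p univ) {R δ : ℝ} (hR : 0 < R)
    (hδ : 0 < δ) {φ ψ : Fin N → E → ℂ} (h : IsRep p (ball 0 R) φ ψ)
    (hmin : ∀ N' < N, ∀ φ' ψ' : Fin N' → E → ℂ, ¬ IsRep p (ball 0 R) φ' ψ')
    (hloc : ∀ z' ∈ ball (0 : E) R, ∃ (N' : ℕ) (φ' ψ' : Fin N' → E → ℂ),
      IsRep p (ball z' δ) φ' ψ') :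
    ∃ φ' ψ' : Fin N → E → ℂ, IsRep p (ball 0 (R + δ)) φ' ψ' ∧
      (∀ i, ∀ z ∈ ball (0 : E) R, φ' i z = φ i z) ∧
      (∀ i, ∀ z ∈ ball (0 : E) R, ψ' i z = ψ i z) := by
  have h1 := h.ext_left hR hδ hmin hloc
  have h2 := h.swap.ext_left hR hδ (fun N' hN' φ' ψ' hh => hmin N' hN' ψ' φ' hh.swap) hloc
  choose φ' hφ1 hφ2 using h1
  choose ψ' hψ1 hψ2 using h2
  refine ⟨φ', ψ', rep_of_small hp hR hφ1 hψ1 fun z hz => ?_, hφ2, hψ2⟩
  rw [h.2.2 z hz]
  exact Finset.sum_congr rfl fun i _ => by rw [hφ2 i z hz, hψ2 i z hz]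

/-- continuation to large balls -/
lemma IsRep.ext_ball [ProperSpace E] {N : ℕ} {p : E → ℝ} (hp : AnalyticOnNhd ℝ p univ) {r : ℝ}
    (hr : 0 < r) {φ ψ : Fin N → E → ℂ} (h : IsRep p (ball 0 r) φ ψ)
    (hmin : ∀ R > 0, ∀ N' < N, ∀ φ' ψ' : Fin N' → E → ℂ, ¬ IsRep p (ball 0 R) φ' ψ')
    (hloc : ∀ z' : E, ∃ δ > 0, ∃ (N' : ℕ) (φ' ψ' : Fin N' → E → ℂ),
      IsRep p (ball z' δ) φ' ψ') (T : ℝ) (hT : 0 < T) :
    ∃ φ' ψ' : Fin N → E → ℂ, IsRep p (ball 0 T) φ' ψ' ∧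
      (∀ i, ∀ z ∈ ball (0 : E) (min r T), φ' i z = φ i z) ∧
      (∀ i, ∀ z ∈ ball (0 : E) (min r T), ψ' i z = ψ i z) := by
  choose d hd N' φ' ψ' h' using hloc
  obtain ⟨δ, hδ, hδ2⟩ := lebesgue_number_lemma_of_metric (isCompact_closedBall (0 : E) T)
    (c := fun z => ball z (d z)) (fun z => isOpen_ball)
    (fun z _ => mem_iUnion.2 ⟨z, mem_ball_self (hd z)⟩)
  have hloc' : ∀ z ∈ closedBall (0 : E) T, ∃ (N' : ℕ) (φ' ψ' : Fin N' → E → ℂ),
      IsRep p (ball z δ) φ' ψ' := by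
    intro z hz
    obtain ⟨i, hi⟩ := hδ2 z hz
    exact ⟨N' i, φ' i, ψ' i, (h' i).mono hi⟩
  have key : ∀ n : ℕ, ∃ φ' ψ' : Fin N → E → ℂ, IsRep p (ball 0 (min (r + n * δ) T)) φ' ψ' ∧
      (∀ i, ∀ z ∈ ball (0 : E) (min r T), φ' i z = φ i z) ∧
      (∀ i, ∀ z ∈ ball (0 : E) (min r T), ψ' i z = ψ i z) := by
    intro n
    induction n with
    | zero =>
      refine ⟨φ, ψ, h.mono (ball_subset_ball ?_), fun _ _ _ => rfl, fun _ _ _ => rfl⟩
      simp
    | succ n ih =>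
      obtain ⟨φ1, ψ1, h1, h2, h3⟩ := ih
      have hRpos : 0 < min (r + n * δ) T := lt_min (by positivity) hT
      obtain ⟨φ2, ψ2, h4, h5, h6⟩ := h1.ext hp hRpos hδ (hmin _ hRpos) (fun z hz =>
        hloc' z (ball_subset_closedBall (ball_subset_ball (min_le_right _ _) hz)))
      refine ⟨φ2, ψ2, h4.mono (ball_subset_ball ?_), ?_, ?_⟩
      · push_cast
        rcases le_total (r + n * δ) T with hle | hle
        · rw [min_eq_left hle]
          exact (min_le_left _ _).trans (by linarith)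
        · rw [min_eq_right hle]
          exact (min_le_right _ _).trans (by linarith)
      · intro i z hz
        rw [h5 i z (ball_subset_ball (min_le_min (by nlinarith [Nat.cast_nonneg (α := ℝ) n])
          le_rfl) hz), h2 i z hz]
      · intro i z hz
        rw [h6 i z (ball_subset_ball (min_le_min (by nlinarith [Nat.cast_nonneg (α := ℝ) n])
          le_rfl) hz), h3 i z hz]
  obtain ⟨n, hn⟩ := exists_nat_gt (T / δ)
  obtain ⟨φ1, ψ1, h1, h2, h3⟩ := key n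
  have hmineq : min (r + n * δ) T = T := by
    refine min_eq_right ?_
    rw [div_lt_iff₀ hδ] at hn
    linarith
  rw [hmineq] at h1
  exact ⟨φ1, ψ1, h1, h2, h3⟩

/-- entire continuation -/
theorem exists_entire_rep [ProperSpace E] {p : E → ℝ} (hp : AnalyticOnNhd ℝ p univ) (c : ℕ)
    (h0 : ∃ δ > 0, ∃ N ≤ c, ∃ φ' ψ' : Fin N → E → ℂ, IsRep p (ball 0 δ) φ' ψ')
    (hloc : ∀ z' : E, ∃ δ > 0, ∃ (N' : ℕ) (φ' ψ' : Fin N' → E → ℂ),
      IsRep p (ball z' δ) φ' ψ') :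
    ∃ N ≤ c, ∃ φ ψ : Fin N → E → ℂ, (∀ i, Differentiable ℂ (φ i)) ∧
      (∀ i, Differentiable ℂ (ψ i)) ∧ ∀ z, (p z : ℂ) = ∑ i, φ i z * conj (ψ i z) := by
  classical
  obtain ⟨δ0, hδ0, N0, hN0, hrep0⟩ := h0
  have hex : ∃ N, ∃ r > 0, ∃ φ' ψ' : Fin N → E → ℂ, IsRep p (ball 0 r) φ' ψ' :=
    ⟨N0, δ0, hδ0, hrep0⟩
  obtain ⟨N, hNle, ⟨r, hr, φ, ψ, h⟩, hmin⟩ : ∃ N, N ≤ c ∧
      (∃ r > 0, ∃ φ' ψ' : Fin N → E → ℂ, IsRep p (ball 0 r) φ' ψ') ∧
      ∀ R > 0, ∀ N' < N, ∀ φ' ψ' : Fin N' → E → ℂ, ¬ IsRep p (ball 0 R) φ' ψ' :=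
    ⟨Nat.find hex, (Nat.find_min' hex ⟨δ0, hδ0, hrep0⟩).trans hN0, Nat.find_spec hex,
      fun R hR N' hN' φ' ψ' hh => Nat.find_min hex hN' ⟨R, hR, φ', ψ', hh⟩⟩
  have hext := h.ext_ball hp hr hmin hloc
  choose φ1 ψ1 h1 h2 h3 using hext
  have hcoh : ∀ (G : ∀ T : ℝ, 0 < T → E → ℂ) (g : E → ℂ)
      (_ : ∀ T hT, DifferentiableOn ℂ (G T hT) (ball 0 T))
      (_ : ∀ T hT, ∀ z ∈ ball (0 : E) (min r T), G T hT z = g z)
      (S T : ℝ) (hS : 0 < S) (hT : 0 < T), ∀ z ∈ ball (0 : E) (min S T), G S hS z = G T hT z := by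
    intro G g hG1 hG2 S T hS hT z hz
    have := eqOn_zero_of_open (Ω := ball (0 : E) (min S T)) (O := ball 0 (min r (min S T)))
      (f := fun z => G S hS z - G T hT z) isOpen_ball (convex_ball _ _)
      (((hG1 S hS).mono (ball_subset_ball (min_le_left _ _))).sub
        ((hG1 T hT).mono (ball_subset_ball (min_le_right _ _)))) isOpen_ball
      (ball_subset_ball (min_le_right _ _)) ⟨0, mem_ball_self (lt_min hr (lt_min hS hT))⟩
      (by
        intro y hy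
        rw [hG2 S hS y (ball_subset_ball (min_le_min le_rfl (min_le_left _ _)) hy),
          hG2 T hT y (ball_subset_ball (min_le_min le_rfl (min_le_right _ _)) hy), sub_self]) z hz
    exact sub_eq_zero.1 this
  have hent : ∀ (G : ∀ T : ℝ, 0 < T → E → ℂ) (g : E → ℂ)
      (_ : ∀ T hT, DifferentiableOn ℂ (G T hT) (ball 0 T))
      (_ : ∀ T hT, ∀ z ∈ ball (0 : E) (min r T), G T hT z = g z),
      ∃ F : E → ℂ, Differentiable ℂ F ∧ ∀ z ∈ ball (0 : E) r, F z = g z := by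
    intro G g hG1 hG2
    have hpos : ∀ z : E, 0 < ‖z‖ + 1 := fun z => by positivity
    refine ⟨fun z => G (‖z‖ + 1) (hpos z) z, fun z => ?_, fun z hz => ?_⟩
    · have hT : (0 : ℝ) < ‖z‖ + 2 := by positivity
      have hz : z ∈ ball (0 : E) (‖z‖ + 2) := by rw [mem_ball_zero_iff]; linarith
      have hd : DifferentiableAt ℂ (G (‖z‖ + 2) hT) z :=
        (hG1 _ hT).differentiableAt (isOpen_ball.mem_nhds hz)
      refine hd.congr_of_eventuallyEq ?_
      filter_upwards [isOpen_ball.mem_nhds hz] with y hy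
      exact hcoh G g hG1 hG2 _ _ _ _ y (by
        rw [mem_ball_zero_iff] at hy ⊢
        exact lt_min (by linarith) hy)
    · exact hG2 _ _ z (by
        rw [mem_ball_zero_iff] at hz ⊢
        exact lt_min hz (by linarith))
  have hφ := fun i => hent (fun T hT => φ1 T hT i) (φ i) (fun T hT => (h1 T hT).1 i)
    (fun T hT => h2 T hT i)
  have hψ := fun i => hent (fun T hT => ψ1 T hT i) (ψ i) (fun T hT => (h1 T hT).2.1 i)
    (fun T hT => h3 T hT i)
  choose Φ hΦ1 hΦ2 using hφ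
  choose Ψ hΨ1 hΨ2 using hψ
  refine ⟨N, hNle, Φ, Ψ, hΦ1, hΨ1, fun z => ?_⟩
  have hrep := rep_of_small (R := ‖z‖ + 1) hp hr (fun i => (hΦ1 i).differentiableOn)
    (fun i => (hΨ1 i).differentiableOn) (fun z hz => by
      rw [h.2.2 z hz]
      exact Finset.sum_congr rfl fun i _ => by rw [hΦ2 i z hz, hΨ2 i z hz])
  exact hrep.2.2 z (by rw [mem_ball_zero_iff]; linarith)

/-- from products to squares, with a prescribed number of terms -/
theorem squares {p : E → ℝ} {N c : ℕ} (hN : 2 * N ≤ c) (φ ψ : Fin N → E → ℂ)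
    (hφ : ∀ i, Differentiable ℂ (φ i)) (hψ : ∀ i, Differentiable ℂ (ψ i))
    (h : ∀ z, (p z : ℂ) = ∑ i, φ i z * conj (ψ i z)) :
    ∃ (ε : Fin c → ℝ) (f : Fin c → E → ℂ),
      (∀ j, ε j = 1 ∨ ε j = -1) ∧ (∀ j, Differentiable ℂ (f j)) ∧
      ∀ z, p z = ∑ j, ε j * Complex.normSq (f j z) := by
  classical
  set ι := Fin N ⊕ Fin N with hι
  set ε0 : ι → ℝ := Sum.elim (fun _ => 1) (fun _ => -1) with hε0
  set f0 : ι → E → ℂ := Sum.elim (fun i z => (φ i z + ψ i z) / 2) (fun i z => (φ i z - ψ i z) / 2)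
    with hf0
  obtain ⟨e⟩ : Nonempty (ι ↪ Fin c) := Function.Embedding.nonempty_of_card_le (by
    simp only [hι, Fintype.card_sum, Fintype.card_fin]; omega)
  refine ⟨Function.extend e ε0 (fun _ => 1), Function.extend e f0 (fun _ => 0), ?_, ?_, ?_⟩
  · intro j
    by_cases hj : ∃ i, e i = j
    · obtain ⟨i, rfl⟩ := hj
      rw [e.injective.extend_apply]
      rcases i with i | i
      · left; rfl
      · right; rfl
    · rw [Function.extend_apply' _ _ _ hj]; left; rfl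
  · intro j
    by_cases hj : ∃ i, e i = j
    · obtain ⟨i, rfl⟩ := hj
      rw [e.injective.extend_apply]
      rcases i with i | i
      · show Differentiable ℂ (fun z => (φ i z + ψ i z) / 2)
        have h1 := hφ i
        have h2 := hψ i
        fun_prop
      · show Differentiable ℂ (fun z => (φ i z - ψ i z) / 2)
        have h1 := hφ i
        have h2 := hψ i
        fun_prop
    · rw [Function.extend_apply' _ _ _ hj]; exact differentiable_const 0
  · intro z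
    have h1 : ∑ i : ι, ε0 i * Complex.normSq (f0 i z) =
        ∑ j, Function.extend e ε0 (fun _ => 1) j *
          Complex.normSq (Function.extend e f0 (fun _ => 0) j z) := by
      refine Finset.sum_of_injOn e (e.injective.injOn) (fun _ _ => Finset.mem_coe.2
        (Finset.mem_univ _)) ?_ ?_
      · intro j _ hj
        have : ¬ ∃ i, e i = j := fun ⟨i, hi⟩ => hj ⟨i, Finset.mem_coe.2 (Finset.mem_univ _), hi⟩
        rw [Function.extend_apply' _ _ _ this, Function.extend_apply' _ _ _ this]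
        simp
      · intro i _
        rw [e.injective.extend_apply, e.injective.extend_apply]
    rw [← h1, Fintype.sum_sum_type]
    simp only [hε0, hf0, Sum.elim_inl, Sum.elim_inr]
    rw [← Finset.sum_add_distrib]
    have h2 : p z = ∑ i, (φ i z * conj (ψ i z)).re := by
      have := congrArg Complex.re (h z)
      rwa [Complex.ofReal_re, Complex.re_sum] at this
    rw [h2]
    refine Finset.sum_congr rfl fun i _ => ?_
    simp only [Complex.normSq_apply, Complex.mul_re, Complex.conj_re, Complex.conj_im,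
      Complex.div_ofNat_re, Complex.div_ofNat_im, Complex.add_re, Complex.add_im, Complex.sub_re,
      Complex.sub_im]
    ring

end Pool.Agent.Sx28.HR
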