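import Pool.Agent.Sx28.HR.Loc
import Pool.Agent.Helper706.JD.B

/-!
The local rank is bounded by `k ^ 4`.
-/

set_option autoImplicit false

namespace Pool.Agent.Sx28.HR

open Filter Topology Set Metric
open scoped ComplexConjugate

/-- kernels of finite rank -/
theorem kernel_rep {X Y : Type} (K : X → Y → ℂ) (N0 : ℕ)
    (h : Module.rank ℂ (Submodule.span ℂ (range fun y => fun x => K x y)) ≤ N0) :
    ∃ N ≤ N0, ∃ (y0 : Fin N → Y) (x0 : Fin N → X) (C : Matrix (Fin N) (Fin N) ℂ),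
      ∀ x y, K x y = ∑ i, ∑ j, K x (y0 i) * C i j * K (x0 j) y := by
  classical
  obtain ⟨b, hb1, hb2, hb3⟩ := exists_linearIndependent ℂ (range fun y => fun x => K x y)
  rw [← hb2, rank_span_set hb3] at h
  have hfin : Finite b := by
    rw [← Cardinal.lt_aleph0_iff_finite]
    exact lt_of_le_of_lt h (Cardinal.natCast_lt_aleph0)
  have := Fintype.ofFinite b
  set N := Fintype.card b with hN
  have hNle : N ≤ N0 := by
    rw [Cardinal.mk_fintype] at h
    exact_mod_cast h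
  let σ : Fin N ≃ b := (Fintype.equivFinOfCardEq rfl).symm
  have hy : ∀ i, ∃ y, (fun x => K x y) = (σ i : X → ℂ) := fun i => hb1 (σ i).2
  choose y0 hy0 using hy
  set f : Fin N → X → ℂ := fun i x => K x (y0 i) with hf
  have hfσ : f = (fun u : b => (u : X → ℂ)) ∘ σ := by
    funext i; exact hy0 i
  have hli : LinearIndependent ℂ f := by
    rw [hfσ]; exact hb3.comp _ σ.injective
  have hspan : Submodule.span ℂ (range f) = Submodule.span ℂ b := by
    rw [hfσ, range_comp, σ.surjective.range_eq, image_univ, Subtype.range_coe]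
  obtain ⟨x0, hx0⟩ := exists_det_ne_zero f hli
  set M : Matrix (Fin N) (Fin N) ℂ := Matrix.of fun i j => f i (x0 j) with hM
  refine ⟨N, hNle, y0, x0, fun i j => M⁻¹ j i, fun x y => ?_⟩
  have h1 : (fun x => K x y) ∈ Submodule.span ℂ (range f) := by
    rw [hspan, hb2]
    exact Submodule.subset_span ⟨y, rfl⟩
  obtain ⟨c, hc⟩ := (Submodule.mem_span_range_iff_exists_fun ℂ).1 h1
  have h2 : (fun j => K (x0 j) y) = Matrix.vecMul c M := by
    funext j
    have := congrFun hc (x0 j)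
    simp only [Finset.sum_apply, Pi.smul_apply, smul_eq_mul] at this
    rw [← this]
    rfl
  have h3 : Matrix.vecMul (fun j => K (x0 j) y) M⁻¹ = c := by
    rw [h2, Matrix.vecMul_vecMul, Matrix.mul_nonsing_inv _ (isUnit_iff_ne_zero.2 hx0),
      Matrix.vecMul_one]
  have h4 := congrFun hc x
  simp only [Finset.sum_apply, Pi.smul_apply, smul_eq_mul] at h4
  rw [← h4]
  refine Finset.sum_congr rfl fun i _ => ?_
  have h5 : c i = ∑ j, K (x0 j) y * M⁻¹ j i := by
    rw [← h3]; rfl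
  rw [h5, Finset.sum_mul]
  refine Finset.sum_congr rfl fun j _ => ?_
  rw [hf]
  ring

variable {m : ℕ}

/-- linear parametrisation of a hyperplane -/
noncomputable def Lhyp (m : ℕ) (a : ℂ) : (Fin (m + 1) → ℂ) →ₗ[ℂ] (Fin (m + 2) → ℂ) where
  toFun x := Fin.insertNth (1 : Fin (m + 2)) (a * x 0) x
  map_add' x y := by
    funext i
    refine Fin.succAboveCases (1 : Fin (m + 2)) ?_ (fun j => ?_) i
    · simp only [Fin.insertNth_apply_same, Pi.add_apply]; ring
    · simp only [Fin.insertNth_apply_succAbove, Pi.add_apply]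
  map_smul' c x := by
    funext i
    refine Fin.succAboveCases (1 : Fin (m + 2)) ?_ (fun j => ?_) i
    · simp only [Fin.insertNth_apply_same, Pi.smul_apply, smul_eq_mul, RingHom.id_apply]; ring
    · simp only [Fin.insertNth_apply_succAbove, Pi.smul_apply, RingHom.id_apply]

lemma Lhyp_injective (a : ℂ) : Function.Injective (Lhyp m a) := by
  intro x y hxy
  funext j
  have := congrFun hxy ((1 : Fin (m + 2)).succAbove j)
  simpa [Lhyp] using this

lemma succAbove_one_zero : (1 : Fin (m + 2)).succAbove 0 = 0 := by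
  apply Fin.succAbove_ne_zero_zero
  intro hh
  have := congrArg Fin.val hh
  simp at this

lemma mem_Hyp_iff {a b : ℂ} {z : Fin (m + 2) → ℂ} (hz : z ∈ Hyp m a b) :
    Pi.single 1 b + Lhyp m a ((1 : Fin (m + 2)).removeNth z) = z := by
  funext i
  refine Fin.succAboveCases (1 : Fin (m + 2)) ?_ (fun j => ?_) i
  · have h1 : z 1 = a * z 0 + b := hz
    simp only [Lhyp, LinearMap.coe_mk, AddHom.coe_mk, Pi.add_apply, Pi.single_eq_same,
      Fin.insertNth_apply_same, Fin.removeNth, succAbove_one_zero, h1]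
    ring
  · simp only [Lhyp, LinearMap.coe_mk, AddHom.coe_mk, Pi.add_apply,
      Fin.insertNth_apply_succAbove, Fin.removeNth, ne_eq, Fin.succAbove_ne, not_false_eq_true,
      Pi.single_eq_of_ne, zero_add]

/-- the hypothesis on hyperplanes -/
def HypRep (m k : ℕ) (p : (Fin (m + 2) → ℂ) → ℝ) : Prop :=
  ∀ (a : Fin (m + 2) → ℂ) (L : (Fin (m + 1) → ℂ) →ₗ[ℂ] (Fin (m + 2) → ℂ)),
    Function.Injective L →
    ∃ (ε : Fin k → ℝ) (g : Fin k → (Fin (m + 1) → ℂ) → ℂ),
      (∀ j, ε j = 1 ∨ ε j = -1) ∧ (∀ j, Differentiable ℂ (g j)) ∧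
      ∀ x, p (a + L x) = ∑ j, ε j * Complex.normSq (g j x)

variable {k : ℕ} {p : (Fin (m + 2) → ℂ) → ℝ} {z0 : Fin (m + 2) → ℂ}
  {P : (Fin (m + 2) → ℂ) × (Fin (m + 2) → ℂ) → ℂ}

theorem R1 {ρ : ℝ} (hH : HypRep m k p) (h : Loc p z0 ρ P) {ι : Type} [Fintype ι] [DecidableEq ι]
    (hk : k < Fintype.card ι) (a b : ℂ) (z w : ι → Fin (m + 2) → ℂ)
    (hz : ∀ i, z i ∈ Hyp m a b ∩ ball z0 ρ) (hw : ∀ i, w i ∈ Hyp m a b ∩ ball z0 ρ) :
    (Matrix.of fun i j => P (z i, cj (w j))).det = 0 := by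
  obtain ⟨ε, g, -, hg, hrep⟩ := hH (Pi.single 1 b) (Lhyp m a) (Lhyp_injective a)
  set x : ι → Fin (m + 1) → ℂ := fun i => (1 : Fin (m + 2)).removeNth (z i) with hx
  set y : ι → Fin (m + 1) → ℂ := fun i => (1 : Fin (m + 2)).removeNth (w i) with hy
  have hxz : ∀ i, Pi.single 1 b + Lhyp m a (x i) = z i := fun i => mem_Hyp_iff (hz i).1
  have hyw : ∀ i, Pi.single 1 b + Lhyp m a (y i) = w i := fun i => mem_Hyp_iff (hw i).1
  have hP : ∀ i j, P (z i, cj (w j)) = ∑ l, (ε l : ℂ) * (g l (x i) * conj (g l (y j))) := by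
    intro i j
    rw [← hxz, ← hyw]
    exact h.rep _ _ ε g hg hrep (by rw [hxz]; exact (hz i).2) (by rw [hyw]; exact (hw j).2)
  set U : Submodule ℂ (ι → ℂ) := Submodule.span ℂ (range fun l : Fin k => fun i => g l (x i))
  have hU : Module.rank ℂ U ≤ k :=
    (rank_span_le _).trans (Cardinal.mk_range_le.trans (by simp))
  have hdet := det_eq_zero_of_rank U k hU hk (fun j i => ∑ l, (ε l : ℂ) *
    (g l (x i) * conj (g l (y j)))) (by
      intro j
      have : (fun i => ∑ l, (ε l : ℂ) * (g l (x i) * conj (g l (y j)))) =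
          ∑ l, ((ε l : ℂ) * conj (g l (y j))) • (fun i => g l (x i)) := by
        funext i
        simp only [Finset.sum_apply, Pi.smul_apply, smul_eq_mul]
        exact Finset.sum_congr rfl fun l _ => by ring
      rw [this]
      exact Submodule.sum_mem _ fun l _ => Submodule.smul_mem _ _
        (Submodule.subset_span ⟨l, rfl⟩)) id
  rw [← Matrix.det_transpose]
  rw [← hdet]
  congr 1
  ext j i
  simp only [Matrix.transpose_apply, Matrix.of_apply, id, hP]

theorem R2 {δ : ℝ} (hH : HypRep m k p) (h : Loc p z0 (3 * δ) P) {ι : Type} [Fintype ι]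
    [DecidableEq ι] (hk : k < Fintype.card ι) (a b a' b' : ℂ) (ha : ‖a‖ < 1) (ha' : ‖a'‖ < 1)
    (z w : ι → Fin (m + 2) → ℂ)
    (hz : ∀ i, z i ∈ Hyp m a b ∩ ball z0 δ) (hw : ∀ i, w i ∈ Hyp m a' b' ∩ ball z0 δ) :
    (Matrix.of fun i j => P (z i, cj (w j))).det = 0 := by
  have hδ : 0 < δ := by have := h.pos; linarith
  set u : (Fin (m + 2) → ℂ) → Fin (m + 2) → ℂ := fun q =>
    Function.update q 1 ((1 / 2) * ((a * q 0 + b) + (a' * q 0 + b'))) with hu
  set v : (Fin (m + 2) → ℂ) → Fin (m + 2) → ℂ := fun q =>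
    Pi.single 1 ((1 / (2 * Complex.I)) * ((a * q 0 + b) - (a' * q 0 + b'))) with hv
  set Λ : Set ℂ := ⋂ i, ⋂ j, {t : ℂ | u (z i) + t • v (z i) ∈ ball z0 (3 * δ) ∧
    u (w j) + (conj t) • v (w j) ∈ ball z0 (3 * δ)} with hΛ
  have hΛo : IsOpen Λ := isOpen_iInter_of_finite fun i => isOpen_iInter_of_finite fun j =>
    (dom_line z0 (3 * δ) _ _ _ _).1
  have hΛc : Convex ℝ Λ := convex_iInter fun i => convex_iInter fun j =>
    (dom_line z0 (3 * δ) _ _ _ _).2
  set g : ℂ → ℂ := fun t => (Matrix.of fun i j =>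
    P (u (z i) + t • v (z i), cj (u (w j) + (conj t) • v (w j)))).det with hg
  have hgd : DifferentiableOn ℂ g Λ := by
    refine differentiableOn_det _ fun i j => ?_
    have h1 : Differentiable ℂ (fun t : ℂ => u (z i) + t • v (z i)) := by fun_prop
    have h2 : Differentiable ℂ (fun t : ℂ => u (w j) + t • v (w j)) := by fun_prop
    refine (h.hol h1 h2).mono fun t ht => ?_
    exact mem_iInter.1 (mem_iInter.1 ht i) j
  have h10 : (1 : Fin (m + 2)) ≠ 0 := by
    intro hh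
    have := congrArg Fin.val hh
    simp at this
  have huv1 : ∀ (q : Fin (m + 2) → ℂ) (t : ℂ), (u q + t • v q) 1 = (1 / 2) * ((a * q 0 + b) + (a' * q 0 + b')) +
      t * ((1 / (2 * Complex.I)) * ((a * q 0 + b) - (a' * q 0 + b'))) := by
    intro q t
    simp [hu, hv]
  have huv0 : ∀ (q : Fin (m + 2) → ℂ) (t : ℂ) (i : Fin (m + 2)), i ≠ 1 → (u q + t • v q) i = q i := by
    intro q t i hi
    simp [hu, hv, Function.update_of_ne hi, Pi.single_eq_of_ne hi]
  have hIz : ∀ i, u (z i) + Complex.I • v (z i) = z i := by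
    intro i
    funext l
    by_cases hl : l = 1
    · subst hl
      rw [huv1]
      have h1 : z i 1 = a * z i 0 + b := (hz i).1
      rw [h1]
      field_simp
      ring
    · exact huv0 _ _ _ hl
  have hIw : ∀ i, u (w i) + (conj Complex.I) • v (w i) = w i := by
    intro i
    funext l
    by_cases hl : l = 1
    · subst hl
      rw [huv1]
      have h1 : w i 1 = a' * w i 0 + b' := (hw i).1
      rw [h1, Complex.conj_I]
      field_simp
      ring
    · exact huv0 _ _ _ hl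
  have hsub : ball z0 δ ⊆ ball z0 (3 * δ) := ball_subset_ball (by linarith)
  have hIΛ : Complex.I ∈ Λ := mem_iInter.2 fun i => mem_iInter.2 fun j =>
    ⟨by rw [hIz]; exact hsub (hz i).2, by rw [hIw]; exact hsub (hw j).2⟩
  -- distances
  have hcoord : ∀ q ∈ ball z0 δ, ∀ l, ‖q l - z0 l‖ < δ := by
    intro q hq l
    rw [mem_ball_iff_norm] at hq
    exact lt_of_le_of_lt (norm_le_pi_norm (q - z0) l) hq
  have hu_mem : ∀ q ∈ ball z0 δ, ‖(1 / 2 : ℂ) * ((a * q 0 + b) + (a' * q 0 + b')) - z0 1‖ < 3 * δ →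
      u q ∈ ball z0 (3 * δ) := by
    intro q hq h1
    rw [mem_ball_iff_norm, pi_norm_lt_iff h.pos]
    intro l
    by_cases hl : l = 1
    · subst hl
      simpa [hu] using h1
    · have := hcoord q hq l
      simp only [hu, Pi.sub_apply, Function.update_of_ne hl]
      linarith
  have hest : ∀ (i _j : ι), ‖a' * z i 0 + b' - z0 1‖ < 3 * δ := by
    intro i j
    have h1 : w j 1 = a' * w j 0 + b' := (hw j).1
    have h2 : a' * z i 0 + b' - z0 1 = a' * ((z i 0 - z0 0) - (w j 0 - z0 0)) + (w j 1 - z0 1) := by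
      rw [h1]; ring
    rw [h2]
    have h3 := hcoord _ (hz i).2 0
    have h4 := hcoord _ (hw j).2 0
    have h5 := hcoord _ (hw j).2 1
    have h6 : ‖a' * ((z i 0 - z0 0) - (w j 0 - z0 0))‖ ≤ 2 * δ := by
      rw [norm_mul]
      have h7 := norm_sub_le (z i 0 - z0 0) (w j 0 - z0 0)
      nlinarith [norm_nonneg a', norm_nonneg ((z i 0 - z0 0) - (w j 0 - z0 0))]
    have h8 := norm_add_le (a' * ((z i 0 - z0 0) - (w j 0 - z0 0))) (w j 1 - z0 1)
    linarith
  have hest' : ∀ (_i j : ι), ‖a * w j 0 + b - z0 1‖ < 3 * δ := by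
    intro i j
    have h1 : z i 1 = a * z i 0 + b := (hz i).1
    have h2 : a * w j 0 + b - z0 1 = a * ((w j 0 - z0 0) - (z i 0 - z0 0)) + (z i 1 - z0 1) := by
      rw [h1]; ring
    rw [h2]
    have h3 := hcoord _ (hz i).2 0
    have h4 := hcoord _ (hw j).2 0
    have h5 := hcoord _ (hz i).2 1
    have h6 : ‖a * ((w j 0 - z0 0) - (z i 0 - z0 0))‖ ≤ 2 * δ := by
      rw [norm_mul]
      have h7 := norm_sub_le (w j 0 - z0 0) (z i 0 - z0 0)
      nlinarith [norm_nonneg a, norm_nonneg ((w j 0 - z0 0) - (z i 0 - z0 0))]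
    have h8 := norm_add_le (a * ((w j 0 - z0 0) - (z i 0 - z0 0))) (z i 1 - z0 1)
    linarith
  have havg : ∀ α β γ : ℂ, ‖α - γ‖ < 3 * δ → ‖β - γ‖ < 3 * δ →
      ‖(1 / 2 : ℂ) * (α + β) - γ‖ < 3 * δ := by
    intro α β γ h1 h2
    have h3 : (1 / 2 : ℂ) * (α + β) - γ = (1 / 2) * ((α - γ) + (β - γ)) := by ring
    rw [h3, norm_mul]
    have h4 := norm_add_le (α - γ) (β - γ)
    have h5 : ‖(1 / 2 : ℂ)‖ = 1 / 2 := by norm_num
    rw [h5]
    linarith
  have h0Λ : (0 : ℂ) ∈ Λ := mem_iInter.2 fun i => mem_iInter.2 fun j => by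
    refine ⟨?_, ?_⟩
    · rw [zero_smul, add_zero]
      refine hu_mem _ (hz i).2 (havg _ _ _ ?_ (hest i j))
      have h1 : z i 1 = a * z i 0 + b := (hz i).1
      rw [← h1]
      have := hcoord _ (hz i).2 1
      linarith
    · rw [map_zero, zero_smul, add_zero]
      refine hu_mem _ (hw j).2 (havg _ _ _ (hest' i j) ?_)
      have h1 : w j 1 = a' * w j 0 + b' := (hw j).1
      rw [← h1]
      have := hcoord _ (hw j).2 1
      linarith
  have key := eq_zero_of_real (g := g) hΛo hΛc hgd h0Λ (by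
    have h1 : ∀ᶠ t : ℝ in 𝓝 0, (t : ℂ) ∈ Λ :=
      (Complex.continuous_ofReal.tendsto' 0 0 (by simp)).eventually (hΛo.mem_nhds h0Λ)
    filter_upwards [h1] with t ht
    set A : ℂ := (1 / 2) * (a + a') + t * ((1 / (2 * Complex.I)) * (a - a')) with hA
    set B : ℂ := (1 / 2) * (b + b') + t * ((1 / (2 * Complex.I)) * (b - b')) with hB
    have hmem : ∀ q, u q + (t : ℂ) • v q ∈ Hyp m A B := by
      intro q
      show (u q + (t : ℂ) • v q) 1 = A * (u q + (t : ℂ) • v q) 0 + B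
      rw [huv1, huv0 q t 0 h10.symm, hA, hB]
      ring
    rw [hg]
    simp only [Complex.conj_ofReal]
    have htm : ∀ i j, u (z i) + (t : ℂ) • v (z i) ∈ ball z0 (3 * δ) ∧
        u (w j) + (t : ℂ) • v (w j) ∈ ball z0 (3 * δ) := by
      intro i j
      have := mem_iInter.1 (mem_iInter.1 ht i) j
      rwa [mem_ofPred_eq, Complex.conj_ofReal] at this
    exact R1 hH h hk A B _ _ (fun i => ⟨hmem _, (htm i i).1⟩) (fun i => ⟨hmem _, (htm i i).2⟩))
    _ hIΛ
  rw [hg] at key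
  simp only [hIz, hIw] at key
  exact key

theorem Z1 {δ : ℝ} (hH : HypRep m k p) (h : Loc p z0 (3 * δ) P) {ι : Type} [Fintype ι]
    [DecidableEq ι] (hk : k ^ 2 < Fintype.card ι) (a' b' : ℂ) (ha' : ‖a'‖ < 1)
    (z w : ι → Fin (m + 2) → ℂ)
    (hz : ∀ i, z i ∈ ball z0 δ) (hw : ∀ i, w i ∈ Hyp m a' b' ∩ ball z0 δ) :
    (Matrix.of fun i j => P (z i, cj (w j))).det = 0 := by
  have hδ : 0 < δ := by have := h.pos; linarith
  have hsub : ball z0 δ ⊆ ball z0 (3 * δ) := ball_subset_ball (by linarith)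
  set S : Set ((Fin (m + 2) → ℂ) → ℂ) := (fun w z => P (z, cj w)) '' (Hyp m a' b' ∩ ball z0 δ)
    with hS
  set U := Submodule.span ℂ S with hU
  have hUd : ∀ f ∈ U, DifferentiableOn ℂ f (ball z0 δ) := by
    intro f hf
    refine Submodule.span_induction ?_ ?_ ?_ ?_ hf
    · rintro _ ⟨w, hw, rfl⟩
      refine h.diff.comp (f := fun z => (z, cj w)) (by fun_prop) fun z hz => ?_
      exact ⟨hsub hz, cj_mem_ball (hsub hw.2)⟩
    · exact differentiableOn_const 0
    · intro f g _ _ hf hg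
      exact hf.add hg
    · intro c f _ hf
      exact hf.const_smul c
  have hr : ∀ a b : ℂ, ‖a‖ < 1 → rk U (Hyp m a b ∩ ball z0 δ) ≤ (k : Cardinal) := by
    intro a b ha
    refine rk_span_le S _ k fun f hf z hz => ?_
    choose w hw hwf using hf
    have := R2 hH h (ι := Fin (k + 1)) (by simp) a b a' b' ha ha' z w hz hw
    rw [← Matrix.det_transpose, ← this]
    congr 1
    ext i j
    simp only [Matrix.transpose_apply, Matrix.of_apply]
    rw [← hwf]
  have h1 := lemZ isOpen_ball (convex_ball z0 δ) k U hUd hr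
  have h2 := rk_det U _ _ h1 hk (fun i z => P (z, cj (w i)))
    (fun i => Submodule.subset_span ⟨w i, hw i, rfl⟩) z hz
  rw [← Matrix.det_transpose, ← h2]
  rfl

theorem Z2 {δ : ℝ} (hH : HypRep m k p) (h : Loc p z0 (3 * δ) P) :
    rk (Submodule.span ℂ ((fun w z => P (z, cj w)) '' (ball z0 δ))) (ball z0 δ) ≤
      (((k ^ 2) ^ 2 : ℕ) : Cardinal) := by
  have hδ : 0 < δ := by have := h.pos; linarith
  have hsub : ball z0 δ ⊆ ball z0 (3 * δ) := ball_subset_ball (by linarith)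
  set S : Set ((Fin (m + 2) → ℂ) → ℂ) := (fun w z => P (z, cj w)) '' (ball z0 δ)
    with hS
  set U := Submodule.span ℂ S with hU
  have hUd : ∀ f ∈ U, DifferentiableOn ℂ f (ball z0 δ) := by
    intro f hf
    refine Submodule.span_induction ?_ ?_ ?_ ?_ hf
    · rintro _ ⟨w, hw, rfl⟩
      refine h.diff.comp (f := fun z => (z, cj w)) (by fun_prop) fun z hz => ?_
      exact ⟨hsub hz, cj_mem_ball (hsub hw)⟩
    · exact differentiableOn_const 0
    · intro f g _ _ hf hg
      exact hf.add hg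
    · intro c f _ hf
      exact hf.const_smul c
  refine lemZ isOpen_ball (convex_ball z0 δ) (k ^ 2) U hUd fun a b ha => ?_
  refine rk_span_le S _ (k ^ 2) fun f hf z hz => ?_
  choose w hw hwf using hf
  have := Z1 hH h (ι := Fin (k ^ 2 + 1)) (by simp) a b ha w z hw hz
  have h2 : (Matrix.of fun i j => f i (z j)) =
      (Matrix.of fun i j => P (w i, cj (z j))).map (starRingEnd ℂ) := by
    ext i j
    simp only [Matrix.map_apply, Matrix.of_apply]
    rw [← hwf]
    exact h.symm (hsub (hw i)) (hsub (hz j).2)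
  rw [h2]
  have h3 := (RingHom.map_det (starRingEnd ℂ) (Matrix.of fun i j => P (w i, cj (z j)))).symm
  rw [this, map_zero] at h3
  exact h3

theorem local_rep (hH : HypRep m k p) (hp : AnalyticAt ℝ p z0) :
    ∃ δ > 0, ∃ N ≤ (k ^ 2) ^ 2, ∃ φ ψ : Fin N → (Fin (m + 2) → ℂ) → ℂ,
      (∀ i, DifferentiableOn ℂ (φ i) (ball z0 δ)) ∧ (∀ i, DifferentiableOn ℂ (ψ i) (ball z0 δ)) ∧
      ∀ z ∈ ball z0 δ, (p z : ℂ) = ∑ i, φ i z * conj (ψ i z) := by
  have hpc : AnalyticAt ℝ (fun z => (p z : ℂ)) z0 := (Complex.ofRealCLM.analyticAt _).comp hp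
  obtain ⟨P, hP1, hP2⟩ :=
    Pool.Agent.Results.MP_51bf1a_an.JetDet.exists_complexification hpc
  obtain ⟨ρ1, hρ1, h1⟩ := Metric.eventually_nhds_iff_ball.1 hP1.eventually_analyticAt
  obtain ⟨ρ2, hρ2, h2⟩ := Metric.eventually_nhds_iff_ball.1 hP2
  set δ := min ρ1 ρ2 / 3 with hδ
  have hδpos : 0 < δ := by positivity
  have h3δ : 3 * δ = min ρ1 ρ2 := by rw [hδ]; ring
  have h : Loc p z0 (3 * δ) P := by
    refine ⟨by linarith, ?_, ?_⟩
    · intro q hq
      have : q ∈ ball (z0, cj z0) ρ1 := by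
        rw [← ball_prod_same]
        have hle : 3 * δ ≤ ρ1 := by rw [h3δ]; exact min_le_left _ _
        exact ⟨ball_subset_ball hle hq.1, ball_subset_ball hle hq.2⟩
      exact (h1 q this).differentiableAt.differentiableWithinAt
    · intro x hx
      refine h2 x (ball_subset_ball ?_ hx)
      rw [h3δ]; exact min_le_right _ _
  have hsub : ball z0 δ ⊆ ball z0 (3 * δ) := ball_subset_ball (by linarith)
  have hr := Z2 hH h
  unfold rk at hr
  rw [Submodule.map_span] at hr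
  have heq : (res (ball z0 δ) '' ((fun w z => P (z, cj w)) '' ball z0 δ)) =
      range (fun y : ball z0 δ => fun x : ball z0 δ => P (x, cj (y : Fin (m + 2) → ℂ))) := by
    ext f
    constructor
    · rintro ⟨_, ⟨w, hw, rfl⟩, rfl⟩
      exact ⟨⟨w, hw⟩, rfl⟩
    · rintro ⟨⟨w, hw⟩, rfl⟩
      exact ⟨_, ⟨w, hw, rfl⟩, rfl⟩
  rw [heq] at hr
  obtain ⟨N, hN, y0, x0, C, hC⟩ := kernel_rep _ _ hr
  have hdiff : ∀ w ∈ ball z0 δ, DifferentiableOn ℂ (fun z => P (z, cj w)) (ball z0 δ) := by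
    intro w hw
    refine h.diff.comp (f := fun z => (z, cj w)) (by fun_prop) fun z hz => ?_
    exact ⟨hsub hz, cj_mem_ball (hsub hw)⟩
  refine ⟨δ, hδpos, N, hN, fun i z => P (z, cj (y0 i : Fin (m + 2) → ℂ)),
    fun i z => ∑ j, conj (C i j) * P (z, cj (x0 j : Fin (m + 2) → ℂ)), ?_, ?_, ?_⟩
  · intro i
    exact hdiff _ (y0 i).2
  · intro i
    exact DifferentiableOn.fun_sum fun j _ => (hdiff _ (x0 j).2).const_mul _
  · intro z hz
    rw [← h.eq z (hsub hz)]
    have := hC ⟨z, hz⟩ ⟨z, hz⟩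
    simp only at this
    rw [this]
    refine Finset.sum_congr rfl fun i _ => ?_
    rw [map_sum, Finset.mul_sum]
    refine Finset.sum_congr rfl fun j _ => ?_
    rw [map_mul, Complex.conj_conj, h.symm (hsub hz) (hsub (x0 j).2)]
    ring

end Pool.Agent.Sx28.HR
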