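import Mathlib

/-!
One variable identity theorems on convex open sets.
-/

set_option autoImplicit false

namespace Pool.Agent.Sx28.HR

open Filter Topology Set

/-- A holomorphic function on a convex open set that vanishes near one of its points vanishes. -/
theorem eq_zero_of_eventually {Λ : Set ℂ} (ho : IsOpen Λ) (hc : Convex ℝ Λ) {g : ℂ → ℂ}
    (hg : DifferentiableOn ℂ g Λ) {a : ℂ} (ha : a ∈ Λ) (h0 : ∀ᶠ t in 𝓝 a, g t = 0) :
    ∀ t ∈ Λ, g t = 0 :=
  (hg.analyticOnNhd ho).eqOn_zero_of_preconnected_of_eventuallyEq_zero hc.isPreconnected ha h0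

/-- A holomorphic function on a convex open set containing `0` that vanishes at the small real
points vanishes. -/
theorem eq_zero_of_real {Λ : Set ℂ} (ho : IsOpen Λ) (hc : Convex ℝ Λ) {g : ℂ → ℂ}
    (hg : DifferentiableOn ℂ g Λ) (ha : (0 : ℂ) ∈ Λ)
    (h0 : ∀ᶠ t : ℝ in 𝓝 0, g (t : ℂ) = 0) :
    ∀ t ∈ Λ, g t = 0 := by
  refine (hg.analyticOnNhd ho).eqOn_zero_of_preconnected_of_frequently_eq_zero hc.isPreconnected ha
    ?_
  have h1 : Tendsto (fun t : ℝ => (t : ℂ)) (𝓝[≠] 0) (𝓝[≠] 0) := by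
    refine tendsto_nhdsWithin_iff.2 ⟨?_, ?_⟩
    · exact (Complex.continuous_ofReal.tendsto' 0 0 (by simp)).mono_left nhdsWithin_le_nhds
    · filter_upwards [self_mem_nhdsWithin] with t ht
      simpa using ht
  exact h1.frequently (h0.filter_mono nhdsWithin_le_nhds).frequently

/-- if a holomorphic function on a convex open set does not vanish at a point, it does not vanish
near any other point (except possibly there) -/
theorem eventually_ne_of_ne {Λ : Set ℂ} (ho : IsOpen Λ) (hc : Convex ℝ Λ) {g : ℂ → ℂ}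
    (hg : DifferentiableOn ℂ g Λ) {a b : ℂ} (ha : a ∈ Λ) (hb : b ∈ Λ) (hga : g a ≠ 0) :
    ∀ᶠ t in 𝓝[≠] b, g t ≠ 0 := by
  have h1 := ((hg.analyticOnNhd ho) b hb).eventually_eq_zero_or_eventually_ne_zero
  rcases h1 with h1 | h1
  · exact absurd (eq_zero_of_eventually ho hc hg hb h1 a ha) hga
  · exact h1

variable {E : Type} [NormedAddCommGroup E] [NormedSpace ℂ E]

/-- complex lines meet convex sets in convex sets -/
theorem convex_line {Ω : Set E} (hc : Convex ℝ Ω) (u v : E) :
    Convex ℝ {t : ℂ | u + t • v ∈ Ω} := by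
  intro s hs t ht a b ha hb hab
  have h1 : u + (a • s + b • t) • v = a • (u + s • v) + b • (u + t • v) := by
    have h2 : a • u + b • u = u := by rw [← add_smul, hab, one_smul]
    calc u + (a • s + b • t) • v = (a • u + b • u) + (a • s + b • t) • v := by rw [h2]
      _ = a • (u + s • v) + b • (u + t • v) := by
        rw [add_smul, smul_add, smul_add, smul_assoc, smul_assoc]
        abel
  show u + (a • s + b • t) • v ∈ Ω
  rw [h1]
  exact hc hs ht ha hb hab

/-- identity theorem on convex open sets, several variables -/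
theorem eqOn_zero_of_open {Ω O : Set E} (ho : IsOpen Ω) (hc : Convex ℝ Ω) {f : E → ℂ}
    (hf : DifferentiableOn ℂ f Ω) (hO : IsOpen O) (hOΩ : O ⊆ Ω) (hne : O.Nonempty)
    (h0 : ∀ z ∈ O, f z = 0) : ∀ z ∈ Ω, f z = 0 := by
  obtain ⟨y, hy⟩ := hne
  intro z hz
  set ξ : ℂ → E := fun t => y + t • (z - y) with hξ
  have hξc : Continuous ξ := by fun_prop
  have hξd : Differentiable ℂ ξ := by
    rw [hξ]; fun_prop
  have hΛo : IsOpen (ξ ⁻¹' Ω) := ho.preimage hξc
  have hΛc : Convex ℝ (ξ ⁻¹' Ω) := convex_line hc y (z - y)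
  have h1 := eq_zero_of_eventually (g := f ∘ ξ) (a := 0) hΛo hΛc
    (hf.comp hξd.differentiableOn (fun t ht => ht)) (by simp [hξ]; exact hOΩ hy) (by
      have : ξ ⁻¹' O ∈ 𝓝 (0 : ℂ) := (hO.preimage hξc).mem_nhds (by simp [hξ]; exact hy)
      filter_upwards [this] with t ht
      exact h0 _ ht)
  have h2 := h1 1 (by simp [hξ]; exact hz)
  simpa [hξ] using h2

end Pool.Agent.Sx28.HR
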