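import Pool.Agent.Sx28.HR.Lin
import Pool.Agent.Sx28.HR.Id

/-!
Continuation of minimal local representations.
-/

set_option autoImplicit false

namespace Pool.Agent.Sx28.HR

open Filter Topology Set Metric
open scoped ComplexConjugate

variable {E : Type} [NormedAddCommGroup E] [NormedSpace ℂ E]

/-- polarisation of a finite sum -/
theorem polar_sum {Ω : Set E} (ho : IsOpen Ω) (hc : Convex ℝ Ω) {ι : Type} [Fintype ι]
    (φ ψ : ι → E → ℂ) (hφ : ∀ i, DifferentiableOn ℂ (φ i) Ω)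
    (hψ : ∀ i, DifferentiableOn ℂ (ψ i) Ω) (h0 : ∀ z ∈ Ω, ∑ i, φ i z * conj (ψ i z) = 0) :
    ∀ z ∈ Ω, ∀ w ∈ Ω, ∑ i, φ i z * conj (ψ i w) = 0 := by
  intro z hz w hw
  set u : E := (1 / 2 : ℂ) • (z + w) with hu
  set v : E := (1 / (2 * Complex.I) : ℂ) • (z - w) with hv
  have hI : u + Complex.I • v = z := by
    rw [hu, hv, smul_smul]
    have : Complex.I * (1 / (2 * Complex.I)) = 1 / 2 := by
      field_simp
    rw [this, ← smul_add]
    have : z + w + (z - w) = (2 : ℂ) • z := by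
      rw [two_smul]; abel
    rw [this, smul_smul]
    norm_num
  have hI' : u + (conj Complex.I) • v = w := by
    rw [hu, hv, smul_smul, Complex.conj_I]
    have : -Complex.I * (1 / (2 * Complex.I)) = -(1 / 2) := by
      field_simp
    rw [this, neg_smul, ← sub_eq_add_neg, ← smul_sub]
    have : z + w - (z - w) = (2 : ℂ) • w := by
      rw [two_smul]; abel
    rw [this, smul_smul]
    norm_num
  have hξ : Differentiable ℂ (fun t : ℂ => u + t • v) := by fun_prop
  set Λ : Set ℂ := {t | u + t • v ∈ Ω} ∩ {t | u + (conj t) • v ∈ Ω} with hΛ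
  have hoΛ : IsOpen Λ := (ho.preimage (by fun_prop)).inter
    ((ho.preimage (f := fun t : ℂ => u + t • v) (by fun_prop)).preimage Complex.continuous_conj)
  have hcΛ : Convex ℝ Λ := (convex_line hc u v).inter
    ((convex_line hc u v).linear_preimage Complex.conjAe.toLinearMap)
  have hIΛ : Complex.I ∈ Λ := by
    refine ⟨?_, ?_⟩
    · show u + Complex.I • v ∈ Ω
      rw [hI]; exact hz
    · show u + (conj Complex.I) • v ∈ Ω
      rw [hI']; exact hw
  have h0Λ : (0 : ℂ) ∈ Λ := by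
    have h1 : (-Complex.I) ∈ Λ := by
      refine ⟨?_, ?_⟩
      · show u + (-Complex.I) • v ∈ Ω
        rw [← Complex.conj_I, hI']; exact hw
      · show u + (conj (-Complex.I)) • v ∈ Ω
        rw [map_neg, Complex.conj_I, neg_neg, hI]; exact hz
    have := hcΛ hIΛ h1 (a := 1 / 2) (b := 1 / 2) (by norm_num) (by norm_num) (by norm_num)
    simpa using this
  have hd : DifferentiableOn ℂ (fun t => ∑ i, φ i (u + t • v) * conj (ψ i (u + conj t • v))) Λ := by
    refine DifferentiableOn.fun_sum fun i _ => DifferentiableOn.mul ?_ ?_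
    · exact (hφ i).comp hξ.differentiableOn fun t ht => ht.1
    · intro t ht
      have h1 : DifferentiableAt ℂ (fun t => ψ i (u + t • v)) (conj t) := by
        have h2 : DifferentiableAt ℂ (ψ i) (u + (conj t) • v) :=
          (hψ i).differentiableAt (ho.mem_nhds ht.2)
        exact DifferentiableAt.comp (conj t) (g := ψ i) (f := fun t : ℂ => u + t • v) h2 (hξ _)
      have h2 := h1.conj_conj
      rw [Complex.conj_conj] at h2
      exact h2.differentiableWithinAt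
  have key := eq_zero_of_real hoΛ hcΛ hd h0Λ (by
      have h1 : ∀ᶠ t : ℝ in 𝓝 0, (t : ℂ) ∈ Λ :=
        (Complex.continuous_ofReal.tendsto' 0 0 (by simp)).eventually (hoΛ.mem_nhds h0Λ)
      filter_upwards [h1] with t ht
      simp only [Complex.conj_ofReal]
      exact h0 _ ht.1) _ hIΛ
  simp only [hI, hI'] at key
  exact key

/-- two point equality of two representations -/
theorem polar_eq {Ω : Set E} (ho : IsOpen Ω) (hc : Convex ℝ Ω) {N N' : ℕ}
    (φ ψ : Fin N → E → ℂ) (hφ : ∀ i, DifferentiableOn ℂ (φ i) Ω)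
    (hψ : ∀ i, DifferentiableOn ℂ (ψ i) Ω)
    (φ' ψ' : Fin N' → E → ℂ) (hφ' : ∀ i, DifferentiableOn ℂ (φ' i) Ω)
    (hψ' : ∀ i, DifferentiableOn ℂ (ψ' i) Ω)
    (h0 : ∀ z ∈ Ω, ∑ i, φ i z * conj (ψ i z) = ∑ i, φ' i z * conj (ψ' i z)) :
    ∀ z ∈ Ω, ∀ w ∈ Ω, ∑ i, φ i z * conj (ψ i w) = ∑ i, φ' i z * conj (ψ' i w) := by
  intro z hz w hw
  have := polar_sum ho hc (ι := Fin N ⊕ Fin N') (Sum.elim φ fun i z => - φ' i z) (Sum.elim ψ ψ')
    (by rintro (i | i)
        · exact hφ i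
        · exact (hφ' i).neg)
    (by rintro (i | i)
        · exact hψ i
        · exact hψ' i)
    (by intro z hz
        rw [Fintype.sum_sum_type]
        simp only [Sum.elim_inl, Sum.elim_inr, neg_mul, Finset.sum_neg_distrib]
        rw [h0 z hz]; ring) z hz w hw
  rw [Fintype.sum_sum_type] at this
  simp only [Sum.elim_inl, Sum.elim_inr, neg_mul, Finset.sum_neg_distrib] at this
  exact eq_of_sub_eq_zero (by rw [sub_eq_add_neg]; exact this)

/-- linear independence on a set -/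
def LIOn {N : ℕ} (φ : Fin N → E → ℂ) (O : Set E) : Prop :=
  ∀ c : Fin N → ℂ, (∀ z ∈ O, ∑ i, c i * φ i z = 0) → c = 0

theorem span_of_rep {O : Set E} (ho : IsOpen O) (hc : Convex ℝ O) {N N' : ℕ}
    (φ ψ : Fin N → E → ℂ) (hφ : ∀ i, DifferentiableOn ℂ (φ i) O)
    (hψ : ∀ i, DifferentiableOn ℂ (ψ i) O)
    (φ' ψ' : Fin N' → E → ℂ) (hφ' : ∀ i, DifferentiableOn ℂ (φ' i) O)
    (hψ' : ∀ i, DifferentiableOn ℂ (ψ' i) O)
    (h0 : ∀ z ∈ O, ∑ i, φ i z * conj (ψ i z) = ∑ i, φ' i z * conj (ψ' i z))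
    (hli : LIOn ψ O) : ∃ U : Fin N → Fin N' → ℂ, ∀ i, ∀ z ∈ O, φ i z = ∑ j, U i j * φ' j z := by
  have h2 := polar_eq ho hc φ ψ hφ hψ φ' ψ' hφ' hψ' h0
  have hli' : LinearIndependent ℂ (fun i => fun z : O => ψ i z) := by
    rw [Fintype.linearIndependent_iff]
    intro c hc
    have := hli c (fun z hz => by
      have := congrFun hc ⟨z, hz⟩
      simpa using this)
    exact fun i => congrFun this i
  obtain ⟨w, hw⟩ := exists_det_ne_zero _ hli'
  set M : Matrix (Fin N) (Fin N) ℂ := Matrix.of fun i l => conj (ψ i (w l : E)) with hM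
  have hMdet : M.det ≠ 0 := by
    have : M = (Matrix.of fun i j => ψ i (w j : E)).map (starRingEnd ℂ) := by
      ext i j; rfl
    rw [this]
    have h3 := (RingHom.map_det (starRingEnd ℂ) (Matrix.of fun i j => ψ i (w j : E))).symm
    intro h4
    change ((starRingEnd ℂ).mapMatrix (Matrix.of fun i j => ψ i (w j : E))).det = 0 at h4
    rw [h3] at h4
    exact hw ((map_eq_zero _).1 h4)
  set M' : Matrix (Fin N') (Fin N) ℂ := Matrix.of fun i l => conj (ψ' i (w l : E)) with hM'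
  refine ⟨fun i j => (M' * M⁻¹) j i, fun i z hz => ?_⟩
  have h5 : Matrix.vecMul (fun i => φ i z) M = Matrix.vecMul (fun i => φ' i z) M' := by
    funext l
    exact h2 z hz (w l) (w l).2
  have h6 : (fun i => φ i z) = Matrix.vecMul (fun i => φ' i z) (M' * M⁻¹) := by
    rw [← Matrix.vecMul_vecMul, ← h5, Matrix.vecMul_vecMul,
      Matrix.mul_nonsing_inv _ (isUnit_iff_ne_zero.2 hMdet), Matrix.vecMul_one]
  have h7 := congrFun h6 i
  simp only [Matrix.vecMul, dotProduct] at h7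
  rw [h7]
  exact Finset.sum_congr rfl fun j _ => mul_comm _ _

/-- gluing -/
theorem glue {R δ : ℝ} (hR : 0 < R) (hδ : 0 < δ) {f : E → ℂ}
    (hloc : ∀ z' ∈ ball (0 : E) R, ∃ g : E → ℂ, DifferentiableOn ℂ g (ball z' δ) ∧
      ∀ z ∈ ball (0 : E) R ∩ ball z' δ, g z = f z) :
    ∃ F : E → ℂ, DifferentiableOn ℂ F (ball 0 (R + δ)) ∧ ∀ z ∈ ball (0 : E) R, F z = f z := by
  classical
  choose! g hg1 hg2 using hloc
  have hagree : ∀ a ∈ ball (0 : E) R, ∀ b ∈ ball (0 : E) R, ∀ z ∈ ball a δ ∩ ball b δ,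
      g a z = g b z := by
    intro a ha b hb z hz
    have hm : (midpoint ℝ a b) ∈ (ball a δ ∩ ball b δ) ∩ ball 0 R := by
      have hab : dist a b < 2 * δ := by
        have h1 := mem_ball'.1 hz.1
        have h2 := mem_ball.1 hz.2
        have h3 := dist_triangle a z b
        linarith
      refine ⟨⟨?_, ?_⟩, ?_⟩
      · rw [mem_ball, dist_midpoint_left]
        rw [Real.norm_of_nonneg (by norm_num : (0 : ℝ) ≤ 2)]
        linarith
      · rw [mem_ball, dist_midpoint_right]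
        rw [Real.norm_of_nonneg (by norm_num : (0 : ℝ) ≤ 2)]
        linarith
      · exact (convex_ball (0 : E) R).midpoint_mem ha hb
    have hsub := eqOn_zero_of_open (Ω := ball a δ ∩ ball b δ)
      (O := (ball a δ ∩ ball b δ) ∩ ball 0 R) (f := fun z => g a z - g b z)
      (isOpen_ball.inter isOpen_ball) ((convex_ball a δ).inter (convex_ball b δ))
      (((hg1 a ha).mono inter_subset_left).sub ((hg1 b hb).mono inter_subset_right))
      ((isOpen_ball.inter isOpen_ball).inter isOpen_ball) inter_subset_left ⟨_, hm⟩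
      (by
        rintro y ⟨⟨hy1, hy2⟩, hy3⟩
        rw [hg2 a ha y ⟨hy3, hy1⟩, hg2 b hb y ⟨hy3, hy2⟩, sub_self]) z hz
    exact sub_eq_zero.1 hsub
  set π : E → E := fun z => (R / (R + δ)) • z with hπ
  have hRδ : 0 < R + δ := by linarith
  have hπ1 : ∀ z ∈ ball (0 : E) (R + δ), π z ∈ ball (0 : E) R := by
    intro z hz
    rw [mem_ball_zero_iff] at hz ⊢
    rw [hπ]
    simp only
    rw [norm_smul, Real.norm_of_nonneg (by positivity)]
    calc R / (R + δ) * ‖z‖ < R / (R + δ) * (R + δ) :=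
          mul_lt_mul_of_pos_left hz (by positivity)
      _ = R := by field_simp
  have hπ2 : ∀ z ∈ ball (0 : E) (R + δ), z ∈ ball (π z) δ := by
    intro z hz
    rw [mem_ball_zero_iff] at hz
    rw [mem_ball_iff_norm]
    have h1 : z - π z = (δ / (R + δ)) • z := by
      rw [hπ]
      simp only
      have h2 : z = ((R + δ) / (R + δ)) • z := by rw [div_self hRδ.ne', one_smul]
      nth_rewrite 1 [h2]
      rw [← sub_smul]
      congr 1
      field_simp
      ring
    rw [h1, norm_smul, Real.norm_of_nonneg (by positivity)]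
    calc δ / (R + δ) * ‖z‖ < δ / (R + δ) * (R + δ) :=
          mul_lt_mul_of_pos_left hz (by positivity)
      _ = δ := by field_simp
  refine ⟨fun z => g (π z) z, ?_, ?_⟩
  · intro z hz
    have h1 : DifferentiableAt ℂ (g (π z)) z :=
      (hg1 _ (hπ1 z hz)).differentiableAt (isOpen_ball.mem_nhds (hπ2 z hz))
    refine (h1.congr_of_eventuallyEq ?_).differentiableWithinAt
    have h2 : ∀ᶠ y in 𝓝 z, y ∈ ball (0 : E) (R + δ) := isOpen_ball.mem_nhds hz
    have h3 : ∀ᶠ y in 𝓝 z, y ∈ ball (π z) δ := isOpen_ball.mem_nhds (hπ2 z hz)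
    filter_upwards [h2, h3] with y hy1 hy2
    exact hagree _ (hπ1 y hy1) _ (hπ1 z hz) y ⟨hπ2 y hy1, hy2⟩
  · intro z hz
    have hz' : z ∈ ball (0 : E) (R + δ) := ball_subset_ball (by linarith) hz
    exact hg2 _ (hπ1 z hz') z ⟨hz, hπ2 z hz'⟩

/-- a representation of `p` on `Ω` with `N` terms -/
def IsRep {N : ℕ} (p : E → ℝ) (Ω : Set E) (φ ψ : Fin N → E → ℂ) : Prop :=
  (∀ i, DifferentiableOn ℂ (φ i) Ω) ∧ (∀ i, DifferentiableOn ℂ (ψ i) Ω) ∧
    ∀ z ∈ Ω, (p z : ℂ) = ∑ i, φ i z * conj (ψ i z)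

lemma IsRep.mono {N : ℕ} {p : E → ℝ} {Ω Ω' : Set E} {φ ψ : Fin N → E → ℂ} (h : IsRep p Ω φ ψ)
    (hs : Ω' ⊆ Ω) : IsRep p Ω' φ ψ :=
  ⟨fun i => (h.1 i).mono hs, fun i => (h.2.1 i).mono hs, fun z hz => h.2.2 z (hs hz)⟩

lemma IsRep.swap {N : ℕ} {p : E → ℝ} {Ω : Set E} {φ ψ : Fin N → E → ℂ} (h : IsRep p Ω φ ψ) :
    IsRep p Ω ψ φ :=
  ⟨h.2.1, h.1, fun z hz => by
    rw [← Complex.conj_ofReal, h.2.2 z hz, map_sum]
    refine Finset.sum_congr rfl fun i _ => ?_
    rw [map_mul, Complex.conj_conj, mul_comm]⟩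

/-- minimal representations are independent -/
lemma IsRep.li {N : ℕ} {p : E → ℝ} {R : ℝ} {φ ψ : Fin N → E → ℂ}
    (h : IsRep p (ball 0 R) φ ψ)
    (hmin : ∀ N' < N, ∀ φ' ψ' : Fin N' → E → ℂ, ¬ IsRep p (ball 0 R) φ' ψ')
    {O : Set E} (hO : IsOpen O) (hOR : O ⊆ ball 0 R) (hne : O.Nonempty) : LIOn φ O := by
  intro c hc
  by_contra hc0
  have hall := eqOn_zero_of_open isOpen_ball (convex_ball (0 : E) R)
    (f := fun z => ∑ i, c i * φ i z)
    (DifferentiableOn.fun_sum fun i _ => (h.1 i).const_mul _) hO hOR hne hc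
  obtain ⟨i0, hi0⟩ := Function.ne_iff.1 hc0
  rw [Pi.zero_apply] at hi0
  obtain _ | N' := N
  · exact i0.elim0
  refine hmin N' (Nat.lt_succ_self _) (fun i => φ (i0.succAbove i))
    (fun i z => ψ (i0.succAbove i) z - conj (c (i0.succAbove i) / c i0) * ψ i0 z)
    ⟨fun i => h.1 _, fun i => (h.2.1 _).sub ((h.2.1 _).const_mul _), fun z hz => ?_⟩
  rw [h.2.2 z hz, Fin.sum_univ_succAbove _ i0]
  have h1 := hall z hz
  rw [Fin.sum_univ_succAbove _ i0] at h1
  have h2 : φ i0 z = - ∑ i, (c (i0.succAbove i) / c i0) * φ (i0.succAbove i) z := by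
    have h3 : c i0 * φ i0 z = - ∑ i, c (i0.succAbove i) * φ (i0.succAbove i) z := by
      linear_combination h1
    have h4 : φ i0 z = (c i0)⁻¹ * (c i0 * φ i0 z) := by field_simp
    rw [h4, h3, mul_neg, Finset.mul_sum]
    congr 1
    exact Finset.sum_congr rfl fun i _ => by ring
  rw [h2, neg_mul, Finset.sum_mul, ← Finset.sum_neg_distrib, ← Finset.sum_add_distrib]
  refine Finset.sum_congr rfl fun i _ => ?_
  rw [map_sub, map_mul, Complex.conj_conj]
  ring

/-- identity theorem for the real analytic function along segments -/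
lemma rep_of_small {N : ℕ} {p : E → ℝ} (hp : AnalyticOnNhd ℝ p univ) {r R : ℝ} (hr : 0 < r)
    {φ ψ : Fin N → E → ℂ} (hφ : ∀ i, DifferentiableOn ℂ (φ i) (ball 0 R))
    (hψ : ∀ i, DifferentiableOn ℂ (ψ i) (ball 0 R))
    (h : ∀ z ∈ ball (0 : E) r, (p z : ℂ) = ∑ i, φ i z * conj (ψ i z)) :
    IsRep p (ball 0 R) φ ψ := by
  refine ⟨hφ, hψ, fun z hz => ?_⟩
  set S : Set ℝ := {t : ℝ | (t : ℂ) • z ∈ ball (0 : E) R} with hS
  have hline : Convex ℝ {t : ℂ | t • z ∈ ball (0 : E) R} := by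
    have := convex_line (convex_ball (0 : E) R) 0 z
    simpa using this
  have hSc : Convex ℝ S := hline.linear_preimage Complex.ofRealCLM.toLinearMap
  have hlo : IsOpen {t : ℂ | t • z ∈ ball (0 : E) R} := isOpen_ball.preimage (by fun_prop)
  have han : ∀ f : E → ℂ, DifferentiableOn ℂ f (ball 0 R) →
      AnalyticOnNhd ℝ (fun t : ℝ => f ((t : ℂ) • z)) S := by
    intro f hf t ht
    have h1 : DifferentiableOn ℂ (fun s : ℂ => f (s • z)) {t : ℂ | t • z ∈ ball (0 : E) R} :=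
      hf.comp (by fun_prop) fun s hs => hs
    have h2 : AnalyticAt ℂ (fun s : ℂ => f (s • z)) ((t : ℝ) : ℂ) := h1.analyticOnNhd hlo _ ht
    exact h2.restrictScalars.comp (Complex.ofRealCLM.analyticAt t)
  have hpa : AnalyticOnNhd ℝ (fun t : ℝ => (p ((t : ℂ) • z) : ℂ)) S := by
    intro t _
    have h1 : AnalyticAt ℝ (fun t : ℝ => (t : ℂ) • z) t :=
      (Complex.ofRealCLM.analyticAt t).smul analyticAt_const
    have h2 : AnalyticAt ℝ p ((t : ℂ) • z) := hp _ (mem_univ _)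
    have h3 : AnalyticAt ℝ (fun t : ℝ => p ((t : ℂ) • z)) t :=
      AnalyticAt.fun_comp (g := p) (f := fun t : ℝ => (t : ℂ) • z) h2 h1
    exact (Complex.ofRealCLM.analyticAt _).comp h3
  have hconj : ∀ f : ℝ → ℂ, AnalyticOnNhd ℝ f S → AnalyticOnNhd ℝ (fun t => conj (f t)) S := by
    intro f hf t ht
    exact ((Complex.conjCLE : ℂ →L[ℝ] ℂ).analyticAt _).comp (hf t ht)
  have hsum : AnalyticOnNhd ℝ (fun t : ℝ => (p ((t : ℂ) • z) : ℂ) -
      ∑ i, φ i ((t : ℂ) • z) * conj (ψ i ((t : ℂ) • z))) S := by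
    refine hpa.sub ?_
    refine Finset.analyticOnNhd_fun_sum _ fun i _ => ?_
    exact (han _ (hφ i)).mul (hconj _ (han _ (hψ i)))
  have h0 : (0 : ℝ) ∈ S := by
    show ((0 : ℝ) : ℂ) • z ∈ ball (0 : E) R
    rw [Complex.ofReal_zero, zero_smul]
    exact mem_ball_self (lt_of_le_of_lt (norm_nonneg z) (mem_ball_zero_iff.1 hz))
  have hev : (fun t : ℝ => (p ((t : ℂ) • z) : ℂ) -
      ∑ i, φ i ((t : ℂ) • z) * conj (ψ i ((t : ℂ) • z))) =ᶠ[𝓝 0] 0 := by
    have h1 : Tendsto (fun t : ℝ => (t : ℂ) • z) (𝓝 0) (𝓝 0) := by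
      have : Continuous fun t : ℝ => (t : ℂ) • z := by fun_prop
      exact this.tendsto' 0 0 (by simp)
    filter_upwards [h1.eventually (ball_mem_nhds 0 hr)] with t ht
    rw [h _ ht, sub_self]
    rfl
  have hfin := hsum.eqOn_zero_of_preconnected_of_eventuallyEq_zero hSc.isPreconnected h0 hev
  have h1 : (1 : ℝ) ∈ S := by
    show ((1 : ℝ) : ℂ) • z ∈ ball (0 : E) R
    rw [Complex.ofReal_one, one_smul]
    exact hz
  have h2 := hfin h1
  simp only [Complex.ofReal_one, one_smul, Pi.zero_apply] at h2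
  exact sub_eq_zero.1 h2

end Pool.Agent.Sx28.HR
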