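import Pool.Agent.Sx28.HR.Lin
import Pool.Agent.Sx28.HR.Id

/-!
A space of holomorphic functions whose restrictions to hyperplanes have dimension at most `k` has
dimension at most `k ^ 2`.
-/

set_option autoImplicit false

namespace Pool.Agent.Sx28.HR

open Filter Topology Set

theorem differentiableOn_det {ι : Type} [Fintype ι] [DecidableEq ι] {Λ : Set ℂ}
    (M : ℂ → ι → ι → ℂ) (h : ∀ i j, DifferentiableOn ℂ (fun s => M s i j) Λ) :
    DifferentiableOn ℂ (fun s => (Matrix.of (M s)).det) Λ := by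
  simp only [Matrix.det_apply]
  refine DifferentiableOn.fun_sum fun σ _ => ?_
  refine DifferentiableOn.const_smul (c := Equiv.Perm.sign σ) ?_
  exact DifferentiableOn.fun_finsetProd fun i _ => h (σ i) i

variable {m : ℕ}

/-- hyperplanes of a two-parameter family -/
def Hyp (m : ℕ) (a b : ℂ) : Set (Fin (m + 2) → ℂ) := {z | z 1 = a * z 0 + b}

theorem lemZ_key {Δ : Set (Fin (m + 2) → ℂ)} (ho : IsOpen Δ) (hc : Convex ℝ Δ) (k : ℕ)
    (U : Submodule ℂ ((Fin (m + 2) → ℂ) → ℂ)) (hU : ∀ u ∈ U, DifferentiableOn ℂ u Δ)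
    (hr : ∀ a b : ℂ, ‖a‖ < 1 → rk U (Hyp m a b ∩ Δ) ≤ ((k + 1 : ℕ) : Cardinal))
    {u0 : (Fin (m + 2) → ℂ) → ℂ} (hu0 : u0 ∈ U) {x0 : Fin (m + 2) → ℂ} (hx0 : x0 ∈ Δ)
    (hne : u0 x0 ≠ 0) (v : Fin (k + 1) → (Fin (m + 2) → ℂ) → ℂ) (hv : ∀ i, v i ∈ U)
    (hv0 : ∀ i, ∀ z ∈ Hyp m 0 (x0 1) ∩ Δ, v i z = 0) (a b : ℂ) (ha : ‖a‖ < 1) (ha0 : a ≠ 0)
    (z : Fin (k + 1) → Fin (m + 2) → ℂ) (hz : ∀ j, z j ∈ Hyp m a b ∩ Δ) :
    (Matrix.of fun i j => v i (z j)).det = 0 := by
  by_contra h
  set Λ : Set ℂ := ⋂ j, {s | z j + s • (x0 - z j) ∈ Δ} with hΛ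
  have hΛo : IsOpen Λ := isOpen_iInter_of_finite fun j => ho.preimage (by fun_prop)
  have hΛc : Convex ℝ Λ := convex_iInter fun j => convex_line hc _ _
  set g : ℂ → ℂ := fun s => (Matrix.of fun i j => v i (z j + s • (x0 - z j))).det with hg
  have hgd : DifferentiableOn ℂ g Λ := by
    refine differentiableOn_det _ fun i j => ?_
    refine (hU _ (hv i)).comp (f := fun s : ℂ => z j + s • (x0 - z j)) ?_ ?_
    · fun_prop
    · intro s hs
      exact mem_iInter.1 hs j
  have h0Λ : (0 : ℂ) ∈ Λ := mem_iInter.2 fun j => by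
    show z j + (0 : ℂ) • (x0 - z j) ∈ Δ
    rw [zero_smul, add_zero]; exact (hz j).2
  have h1Λ : (1 : ℂ) ∈ Λ := mem_iInter.2 fun j => by
    show z j + (1 : ℂ) • (x0 - z j) ∈ Δ
    rw [one_smul, add_sub_cancel]; exact hx0
  have hg0 : g 0 ≠ 0 := by
    rw [hg]
    simpa using h
  have hev := eventually_ne_of_ne hΛo hΛc hgd h0Λ h1Λ hg0
  set bs : ℂ → ℂ := fun s => (1 - s) * b + s * (x0 1 - a * x0 0) with hbs
  set y : ℂ → Fin (m + 2) → ℂ := fun s => Function.update x0 0 ((x0 1 - bs s) / a) with hy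
  have hyc : Continuous y := by
    refine Continuous.update continuous_const 0 ?_
    rw [hbs]
    fun_prop
  have hy1 : y 1 = x0 := by
    rw [hy, hbs]
    simp only
    have : (x0 1 - ((1 - 1) * b + 1 * (x0 1 - a * x0 0))) / a = x0 0 := by
      field_simp
      ring
    rw [this, Function.update_eq_self]
  have huc : ContinuousAt u0 x0 := ((hU _ hu0).continuousOn).continuousAt (ho.mem_nhds hx0)
  have hev2 : ∀ᶠ s in 𝓝 (1 : ℂ), y s ∈ Δ ∧ u0 (y s) ≠ 0 := by
    have h1 : Tendsto y (𝓝 1) (𝓝 x0) := by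
      have := hyc.tendsto 1
      rwa [hy1] at this
    exact (h1.eventually (ho.mem_nhds hx0)).and
      ((huc.tendsto.comp h1).eventually_ne hne)
  have hev3 : ∀ᶠ s in 𝓝 (1 : ℂ), s ∈ Λ := hΛo.mem_nhds h1Λ
  obtain ⟨s, ⟨hs1, hs2, hs3⟩, hs4⟩ := ((hev.and (hev2.filter_mono nhdsWithin_le_nhds)).and
    (hev3.filter_mono nhdsWithin_le_nhds)).exists
  have h10 : (1 : Fin (m + 2)) ≠ 0 := by
    intro hh
    have := congrArg Fin.val hh
    simp at this
  have hy1' : y s 1 = x0 1 := by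
    rw [hy]
    exact Function.update_of_ne h10 _ _
  have hy0' : y s 0 = (x0 1 - bs s) / a := by
    rw [hy]
    exact Function.update_self _ _ _
  have hyH : y s ∈ Hyp m a (bs s) := by
    show y s 1 = a * y s 0 + bs s
    rw [hy1', hy0']
    field_simp
    ring
  have hyH0 : y s ∈ Hyp m 0 (x0 1) ∩ Δ := ⟨by
    show y s 1 = 0 * y s 0 + x0 1
    rw [hy1', zero_mul, zero_add], hs2⟩
  have hzH : ∀ j, z j + s • (x0 - z j) ∈ Hyp m a (bs s) := by
    intro j
    have h1 : z j 1 = a * z j 0 + b := (hz j).1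
    show z j 1 + s * (x0 1 - z j 1) = a * (z j 0 + s * (x0 0 - z j 0)) + bs s
    rw [hbs, h1]
    ring
  have hdet := rk_det (ι := Fin (k + 1) ⊕ Unit) U _ _ (hr a (bs s) ha) (by simp)
    (Sum.elim v (fun _ => u0)) (by
      rintro (i | i)
      · exact hv i
      · exact hu0)
    (Sum.elim (fun j => z j + s • (x0 - z j)) (fun _ => y s)) (by
      rintro (j | j)
      · exact ⟨hzH j, mem_iInter.1 hs4 j⟩
      · exact ⟨hyH, hs2⟩)
  have hblock : (Matrix.of fun i j : Fin (k + 1) ⊕ Unit => (Sum.elim v (fun _ => u0) i)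
      (Sum.elim (fun j => z j + s • (x0 - z j)) (fun _ => y s) j)) =
      Matrix.fromBlocks (Matrix.of fun i j => v i (z j + s • (x0 - z j))) 0
        (Matrix.of fun _ j => u0 (z j + s • (x0 - z j))) (Matrix.of fun _ _ => u0 (y s)) := by
    ext i j
    rcases i with i | i <;> rcases j with j | j
    · rfl
    · show v i (y s) = 0
      exact hv0 i _ hyH0
    · rfl
    · rfl
  rw [hblock, Matrix.det_fromBlocks_zero₁₂] at hdet
  rcases mul_eq_zero.1 hdet with h2 | h2
  · exact hs1 h2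
  · rw [Matrix.det_unique] at h2
    exact hs3 h2

theorem lemZ {Δ : Set (Fin (m + 2) → ℂ)} (ho : IsOpen Δ) (hc : Convex ℝ Δ) (k : ℕ) :
    ∀ (U : Submodule ℂ ((Fin (m + 2) → ℂ) → ℂ)), (∀ u ∈ U, DifferentiableOn ℂ u Δ) →
      (∀ a b : ℂ, ‖a‖ < 1 → rk U (Hyp m a b ∩ Δ) ≤ (k : Cardinal)) →
      rk U Δ ≤ ((k ^ 2 : ℕ) : Cardinal) := by
  induction k with
  | zero =>
    intro U hU hr
    have hcast : (((0 : ℕ) ^ 2 : ℕ) : Cardinal) = ((0 : ℕ) : Cardinal) := by norm_num
    rw [hcast]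
    refine rk_le_of_det U Δ 0 fun f hf z hz => ?_
    change Fin 1 → _ at f
    change Fin 1 → _ at z
    show (Matrix.of fun i j : Fin 1 => f i (z j)).det = 0
    rw [Matrix.det_unique]
    show f default (z default) = 0
    have h1 := rk_det (ι := Unit) U _ _ (hr 0 (z default 1) (by simp)) (by simp)
      (fun _ => f default) (fun _ => hf _) (fun _ => z default)
      (fun _ => ⟨by show z default 1 = 0 * z default 0 + z default 1; ring, hz _⟩)
    rw [Matrix.det_unique] at h1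
    exact h1
  | succ k ih =>
    intro U hU hr
    by_cases hall : ∀ u ∈ U, ∀ z ∈ Δ, u z = 0
    · refine rk_le_of_det U Δ _ fun f hf z hz => ?_
      have : (Matrix.of fun i j => f i (z j)) = 0 := by
        ext i j
        exact hall _ (hf i) _ (hz j)
      rw [this, Matrix.det_zero]
    · push Not at hall
      obtain ⟨u0, hu0, x0, hx0, hne⟩ := hall
      set K := U ⊓ LinearMap.ker (res (Hyp m 0 (x0 1) ∩ Δ)) with hK
      have hKU : ∀ u ∈ K, u ∈ U := fun u hu => hu.1
      have hK0 : ∀ u ∈ K, ∀ z ∈ Hyp m 0 (x0 1) ∩ Δ, u z = 0 := by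
        intro u hu z hz
        have := LinearMap.mem_ker.1 hu.2
        exact congrFun this ⟨z, hz⟩
      have hclaim : ∀ a b : ℂ, ‖a‖ < 1 → rk K (Hyp m a b ∩ Δ) ≤ (k : Cardinal) := by
        intro a b ha
        refine rk_le_of_det K _ k fun v hv z hz => ?_
        by_cases ha0 : a = 0
        · subst ha0
          by_contra hdet
          set Λ : Set ℂ := ⋂ j, {s | z j + s • (Pi.single 1 (z j 0)) ∈ Δ} with hΛ
          have hΛo : IsOpen Λ := isOpen_iInter_of_finite fun j => ho.preimage (by fun_prop)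
          have hΛc : Convex ℝ Λ := convex_iInter fun j => convex_line hc _ _
          set g : ℂ → ℂ := fun s => (Matrix.of fun i j =>
            v i (z j + s • (Pi.single 1 (z j 0)))).det with hg
          have hgd : DifferentiableOn ℂ g Λ := by
            refine differentiableOn_det _ fun i j => ?_
            refine (hU _ (hKU _ (hv i))).comp
              (f := fun s : ℂ => z j + s • (Pi.single 1 (z j 0))) ?_ ?_
            · fun_prop
            · intro s hs
              exact mem_iInter.1 hs j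
          have h0Λ : (0 : ℂ) ∈ Λ := mem_iInter.2 fun j => by
            show z j + (0 : ℂ) • (Pi.single 1 (z j 0)) ∈ Δ
            rw [zero_smul, add_zero]; exact (hz j).2
          have hg0 : g 0 ≠ 0 := by
            rw [hg]
            simpa using hdet
          have hev := eventually_ne_of_ne hΛo hΛc hgd h0Λ h0Λ hg0
          have hev2 : ∀ᶠ s in 𝓝 (0 : ℂ), s ∈ Λ := hΛo.mem_nhds h0Λ
          have hev3 : ∀ᶠ s in 𝓝 (0 : ℂ), ‖s‖ < 1 :=
            (continuous_norm.tendsto' (0 : ℂ) 0 (by simp)).eventually_lt_const zero_lt_one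
          have hev4 : ∀ᶠ s in 𝓝[≠] (0 : ℂ), s ≠ 0 := self_mem_nhdsWithin
          obtain ⟨s, ⟨⟨hs1, hs2⟩, hs3⟩, hs4⟩ := (((hev.and
            (hev2.filter_mono nhdsWithin_le_nhds)).and
            (hev3.filter_mono nhdsWithin_le_nhds)).and hev4).exists
          refine hs1 (lemZ_key ho hc k U hU hr hu0 hx0 hne v (fun i => hKU _ (hv i))
            (fun i => hK0 _ (hv i)) s b hs3 hs4 _ fun j => ⟨?_, mem_iInter.1 hs2 j⟩)
          have h10 : (0 : Fin (m + 2)) ≠ 1 := by
            intro hh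
            have := congrArg Fin.val hh
            simp at this
          have h1 : z j 1 = 0 * z j 0 + b := (hz j).1
          show z j 1 + s * (Pi.single 1 (z j 0) : Fin (m + 2) → ℂ) 1 =
            s * (z j 0 + s * (Pi.single 1 (z j 0) : Fin (m + 2) → ℂ) 0) + b
          rw [Pi.single_eq_same, Pi.single_eq_of_ne h10, h1]
          ring
        · exact lemZ_key ho hc k U hU hr hu0 hx0 hne v (fun i => hKU _ (hv i))
            (fun i => hK0 _ (hv i)) a b ha ha0 z hz
      have h1 := ih K (fun u hu => hU u (hKU u hu)) hclaim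
      have h2 := rk_le_add U (Y := Hyp m 0 (x0 1) ∩ Δ) (Z := Δ) inter_subset_right
      have h3 := hr 0 (x0 1) (by simp)
      refine h2.trans ((add_le_add h3 h1).trans ?_)
      norm_cast
      nlinarith

end Pool.Agent.Sx28.HR
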