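import Mathlib

/-!
Linear algebra: ranks of spaces of functions and determinants of matrices of values.
-/

set_option autoImplicit false

namespace Pool.Agent.Sx28.HR

open Module

variable {X : Type}

/-- linearly independent functions have a nonzero determinant of values -/
theorem exists_det_ne_zero {m : ℕ} (f : Fin m → X → ℂ) (hf : LinearIndependent ℂ f) :
    ∃ z : Fin m → X, (Matrix.of fun i j => f i (z j)).det ≠ 0 := by
  classical
  set e : X → (Fin m → ℂ) := fun x i => f i x with he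
  have hspan : Submodule.span ℂ (Set.range e) = ⊤ := by
    by_contra hne
    obtain ⟨φ, hφ0, hφ⟩ := Submodule.exists_le_ker_of_lt_top _ (lt_top_iff_ne_top.2 hne)
    apply hφ0
    have h1 : ∀ v : Fin m → ℂ, φ v = ∑ i, v i * φ (Pi.single i 1) := by
      intro v
      conv_lhs => rw [← Finset.univ_sum_single v]
      rw [map_sum]
      refine Finset.sum_congr rfl fun i _ => ?_
      have : (Pi.single i (v i) : Fin m → ℂ) = v i • Pi.single i (1 : ℂ) := by
        rw [← Pi.single_smul, smul_eq_mul, mul_one]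
      rw [this, map_smul, smul_eq_mul]
    have h2 : ∑ i, φ (Pi.single i 1) • f i = 0 := by
      funext x
      have h3 : φ (e x) = 0 := hφ (Submodule.subset_span ⟨x, rfl⟩)
      rw [h1] at h3
      simp only [Finset.sum_apply, Pi.smul_apply, smul_eq_mul, Pi.zero_apply]
      rw [← h3]
      exact Finset.sum_congr rfl fun i _ => by rw [he, mul_comm]
    have h4 := Fintype.linearIndependent_iff.1 hf _ h2
    refine LinearMap.ext fun v => ?_
    rw [h1 v]
    simp [h4]
  obtain ⟨b, hb1, hb2, hb3⟩ := exists_linearIndependent ℂ (Set.range e)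
  rw [hspan] at hb2
  let B : Basis b ℂ (Fin m → ℂ) := Basis.mk hb3 (by rw [Subtype.range_coe, hb2])
  have hfin : Finite b := (Module.Finite.finite_basis B)
  have := Fintype.ofFinite b
  have hcard : Fintype.card b = m := by
    have := Module.finrank_eq_card_basis B
    rw [Module.finrank_fin_fun] at this
    exact this.symm
  let σ : Fin m ≃ b := (Fintype.equivFinOfCardEq hcard).symm
  have hz : ∀ j, ∃ x, e x = (σ j : Fin m → ℂ) := fun j => hb1 (σ j).2
  choose z hz using hz
  refine ⟨z, ?_⟩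
  have hli : LinearIndependent ℂ (fun j => e (z j)) := by
    have h5 : (fun j => e (z j)) = (fun x : b => (x : Fin m → ℂ)) ∘ σ := by
      funext j; exact hz j
    rw [h5]
    exact hb3.comp _ σ.injective
  have h6 : (Matrix.of fun i j => f i (z j)) = (Matrix.of fun j => e (z j)).transpose := by
    ext i j; rfl
  rw [h6, Matrix.det_transpose]
  intro h0
  obtain ⟨v, hv, hv0⟩ := Matrix.exists_vecMul_eq_zero_iff.2 h0
  apply hv
  funext j
  have h7 : ∑ j, v j • e (z j) = 0 := by
    funext i
    have := congrFun hv0 i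
    simpa [Matrix.vecMul, dotProduct] using this
  exact Fintype.linearIndependent_iff.1 hli v h7 j

/-- small rank from vanishing determinants of generators -/
theorem rank_span_le_of_det (S : Set (X → ℂ)) (k : ℕ)
    (h : ∀ f : Fin (k + 1) → X → ℂ, (∀ i, f i ∈ S) → ∀ z : Fin (k + 1) → X,
      (Matrix.of fun i j => f i (z j)).det = 0) :
    Module.rank ℂ (Submodule.span ℂ S) ≤ k := by
  classical
  obtain ⟨b, hb1, hb2, hb3⟩ := exists_linearIndependent ℂ S
  rw [← hb2, rank_span_set hb3]
  by_contra hlt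
  rw [not_le] at hlt
  have h1 : (k : Cardinal) + 1 ≤ Cardinal.mk b := by
    have := Order.succ_le_of_lt hlt
    rwa [Cardinal.succ_natCast] at this
  have h2 : Nonempty (Fin (k + 1) ↪ b) := by
    rw [← Cardinal.lift_mk_le']
    simpa using h1
  obtain ⟨g⟩ := h2
  have hli : LinearIndependent ℂ (fun i => (g i : X → ℂ)) := hb3.comp _ g.injective
  obtain ⟨z, hz⟩ := exists_det_ne_zero _ hli
  exact hz (h _ (fun i => hb1 (g i).2) z)

/-- vanishing determinants from small rank -/
theorem det_eq_zero_of_rank {ι : Type} [Fintype ι] [DecidableEq ι] (U : Submodule ℂ (X → ℂ))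
    (k : ℕ) (hU : Module.rank ℂ U ≤ k) (hk : k < Fintype.card ι) (f : ι → X → ℂ)
    (hf : ∀ i, f i ∈ U) (z : ι → X) : (Matrix.of fun i j => f i (z j)).det = 0 := by
  classical
  by_contra h0
  have hli : LinearIndependent ℂ (fun i => (⟨f i, hf i⟩ : U)) := by
    rw [Fintype.linearIndependent_iff]
    intro c hc
    have h1 : Matrix.vecMul c (Matrix.of fun i j => f i (z j)) = 0 := by
      funext j
      have h2 := congrArg (fun u : U => (u : X → ℂ) (z j)) hc
      simpa [Matrix.vecMul, dotProduct] using h2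
    have h3 := Matrix.eq_zero_of_vecMul_eq_zero h0 h1
    exact fun i => congrFun h3 i
  have h4 := hli.cardinal_le_rank
  have h5 : (Fintype.card ι : Cardinal) ≤ k := by
    rw [← Cardinal.mk_fintype]
    exact h4.trans hU
  exact absurd (by exact_mod_cast h5) (not_le.2 hk)

/-- restriction of functions to a set -/
def res {E : Type} (Y : Set E) : (E → ℂ) →ₗ[ℂ] (Y → ℂ) := LinearMap.funLeft ℂ ℂ (Subtype.val)

@[simp] lemma res_apply {E : Type} (Y : Set E) (f : E → ℂ) (y : Y) : res Y f y = f y := rfl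

/-- dimension of the space of restrictions -/
noncomputable def rk {E : Type} (U : Submodule ℂ (E → ℂ)) (Y : Set E) : Cardinal :=
  Module.rank ℂ (U.map (res Y))

theorem rk_det {E ι : Type} [Fintype ι] [DecidableEq ι] (U : Submodule ℂ (E → ℂ)) (Y : Set E)
    (k : ℕ) (hU : rk U Y ≤ k) (hk : k < Fintype.card ι) (f : ι → E → ℂ)
    (hf : ∀ i, f i ∈ U) (z : ι → E) (hz : ∀ i, z i ∈ Y) :
    (Matrix.of fun i j => f i (z j)).det = 0 := by
  have := det_eq_zero_of_rank (U.map (res Y)) k hU hk (fun i => res Y (f i))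
    (fun i => Submodule.mem_map_of_mem (hf i)) (fun i => ⟨z i, hz i⟩)
  exact this

theorem rk_span_le {E : Type} (S : Set (E → ℂ)) (Y : Set E) (k : ℕ)
    (h : ∀ f : Fin (k + 1) → E → ℂ, (∀ i, f i ∈ S) → ∀ z : Fin (k + 1) → E, (∀ j, z j ∈ Y) →
      (Matrix.of fun i j => f i (z j)).det = 0) :
    rk (Submodule.span ℂ S) Y ≤ k := by
  unfold rk
  rw [Submodule.map_span]
  apply rank_span_le_of_det
  intro f hf z
  choose g hg1 hg2 using hf
  have := h g hg1 (fun j => (z j : E)) (fun j => (z j).2)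
  rw [← this]
  congr 1
  ext i j
  simp only [Matrix.of_apply]
  rw [← hg2 i]
  rfl

theorem rk_le_of_det {E : Type} (U : Submodule ℂ (E → ℂ)) (Y : Set E) (k : ℕ)
    (h : ∀ f : Fin (k + 1) → E → ℂ, (∀ i, f i ∈ U) → ∀ z : Fin (k + 1) → E, (∀ j, z j ∈ Y) →
      (Matrix.of fun i j => f i (z j)).det = 0) :
    rk U Y ≤ k := by
  have := rk_span_le (U : Set (E → ℂ)) Y k h
  rwa [Submodule.span_eq] at this

theorem rk_le_add {E : Type} (U : Submodule ℂ (E → ℂ)) {Y Z : Set E} (hYZ : Y ⊆ Z) :
    rk U Z ≤ rk U Y + rk (U ⊓ LinearMap.ker (res Y)) Z := by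
  set V := U.map (res Z) with hV
  set ρ : (Z → ℂ) →ₗ[ℂ] (Y → ℂ) := LinearMap.funLeft ℂ ℂ (Set.inclusion hYZ) with hρ
  have hcomp : ρ ∘ₗ res Z = res Y := by
    ext f y
    rfl
  have h1 := LinearMap.rank_range_add_rank_ker (ρ ∘ₗ V.subtype)
  have h2 : LinearMap.range (ρ ∘ₗ V.subtype) = U.map (res Y) := by
    rw [LinearMap.range_comp, Submodule.range_subtype, hV, ← Submodule.map_comp, hcomp]
  have h3 : Module.rank ℂ (LinearMap.ker (ρ ∘ₗ V.subtype)) ≤
      Module.rank ℂ ((U ⊓ LinearMap.ker (res Y)).map (res Z)) := by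
    let j : LinearMap.ker (ρ ∘ₗ V.subtype) →ₗ[ℂ] ((U ⊓ LinearMap.ker (res Y)).map (res Z)) :=
      LinearMap.codRestrict _ (V.subtype ∘ₗ Submodule.subtype _) (by
        rintro ⟨⟨v, hv⟩, hk⟩
        obtain ⟨u, hu, rfl⟩ := hv
        refine ⟨u, ⟨hu, ?_⟩, rfl⟩
        rw [SetLike.mem_coe, LinearMap.mem_ker, ← hcomp]
        exact LinearMap.mem_ker.1 hk)
    refine LinearMap.rank_le_of_injective j ?_
    intro a b hab
    have := congrArg Subtype.val hab
    exact Subtype.ext (Subtype.ext this)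
  rw [h2] at h1
  unfold rk
  rw [← hV, ← h1]
  exact add_le_add le_rfl h3

end Pool.Agent.Sx28.HR
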