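import Pool.Agent.Sx28.HR.LemZ

/-!
Local polarisation of a real analytic function and the rank of its restrictions to pairs of
hyperplanes.
-/

set_option autoImplicit false

namespace Pool.Agent.Sx28.HR

open Filter Topology Set Metric
open scoped ComplexConjugate

/-- coordinatewise complex conjugation -/
noncomputable def cj {ι : Type} (z : ι → ℂ) : ι → ℂ := fun i => conj (z i)

lemma cj_cj {ι : Type} (z : ι → ℂ) : cj (cj z) = z := by
  funext i; simp [cj]

lemma cj_sub {ι : Type} (z w : ι → ℂ) : cj (z - w) = cj z - cj w := by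
  funext i; simp [cj]

lemma norm_cj {ι : Type} [Fintype ι] (z : ι → ℂ) : ‖cj z‖ = ‖z‖ := by
  simp [cj, Pi.norm_def]

lemma cj_mem_ball {ι : Type} [Fintype ι] {z z0 : ι → ℂ} {ρ : ℝ} (hz : z ∈ ball z0 ρ) :
    cj z ∈ ball (cj z0) ρ := by
  rw [mem_ball_iff_norm] at hz ⊢
  rwa [← cj_sub, norm_cj]

lemma differentiable_cj_conj {ι : Type} [Fintype ι] {η : ℂ → ι → ℂ} (hη : Differentiable ℂ η) :
    Differentiable ℂ (fun t => cj (η (conj t))) := by
  rw [differentiable_pi]
  intro i t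
  have h1 : DifferentiableAt ℂ (fun s => η s i) (conj t) := (differentiable_pi.1 hη i) _
  have h2 := (h1.conj_conj (x := conj t))
  rw [Complex.conj_conj] at h2
  exact h2

/-- the local polarisation -/
structure Loc {n : ℕ} (p : (Fin n → ℂ) → ℝ) (z0 : Fin n → ℂ) (ρ : ℝ)
    (P : (Fin n → ℂ) × (Fin n → ℂ) → ℂ) : Prop where
  pos : 0 < ρ
  diff : DifferentiableOn ℂ P (ball z0 ρ ×ˢ ball (cj z0) ρ)
  eq : ∀ x ∈ ball z0 ρ, P (x, cj x) = (p x : ℂ)

section

variable {n : ℕ} {p : (Fin n → ℂ) → ℝ} {z0 : Fin n → ℂ} {ρ : ℝ}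
  {P : (Fin n → ℂ) × (Fin n → ℂ) → ℂ}

lemma Loc.hol (h : Loc p z0 ρ P) {ξ η : ℂ → Fin n → ℂ} (hξ : Differentiable ℂ ξ)
    (hη : Differentiable ℂ η) :
    DifferentiableOn ℂ (fun t => P (ξ t, cj (η (conj t))))
      {t | ξ t ∈ ball z0 ρ ∧ η (conj t) ∈ ball z0 ρ} := by
  refine h.diff.comp (f := fun t => (ξ t, cj (η (conj t)))) ?_ ?_
  · exact (hξ.prodMk (differentiable_cj_conj hη)).differentiableOn
  · rintro t ⟨h1, h2⟩
    exact ⟨h1, cj_mem_ball h2⟩

lemma convex_conj {Λ : Set ℂ} (hΛ : Convex ℝ Λ) : Convex ℝ {t | conj t ∈ Λ} :=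
  hΛ.linear_preimage Complex.conjAe.toLinearMap

lemma isOpen_conj {Λ : Set ℂ} (hΛ : IsOpen Λ) : IsOpen {t : ℂ | conj t ∈ Λ} :=
  hΛ.preimage Complex.continuous_conj

/-- domain of a pair of affine discs -/
lemma dom_line (z0 : Fin n → ℂ) (ρ : ℝ) (u v u' v' : Fin n → ℂ) :
    IsOpen {t : ℂ | u + t • v ∈ ball z0 ρ ∧ u' + (conj t) • v' ∈ ball z0 ρ} ∧
    Convex ℝ {t : ℂ | u + t • v ∈ ball z0 ρ ∧ u' + (conj t) • v' ∈ ball z0 ρ} := by
  constructor
  · refine IsOpen.inter (isOpen_ball.preimage (by fun_prop)) ?_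
    refine isOpen_conj (Λ := {t : ℂ | u' + t • v' ∈ ball z0 ρ}) (isOpen_ball.preimage (by fun_prop))
  · exact (convex_line (convex_ball z0 ρ) u v).inter
      (convex_conj (convex_line (convex_ball z0 ρ) u' v'))

/-- Hermitian symmetry -/
lemma Loc.symm (h : Loc p z0 ρ P) {z w : Fin n → ℂ} (hz : z ∈ ball z0 ρ) (hw : w ∈ ball z0 ρ) :
    P (w, cj z) = conj (P (z, cj w)) := by
  set u : Fin n → ℂ := (1 / 2 : ℂ) • (z + w) with hu
  set v : Fin n → ℂ := (1 / (2 * Complex.I) : ℂ) • (z - w) with hv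
  have hξ : Differentiable ℂ (fun t : ℂ => u + t • v) := by fun_prop
  obtain ⟨ho, hc⟩ := dom_line z0 ρ u v u v
  have hd1 := h.hol hξ hξ
  set Λ := {t : ℂ | u + t • v ∈ ball z0 ρ ∧ u + (conj t) • v ∈ ball z0 ρ} with hΛ
  have hsym : ∀ t ∈ Λ, conj t ∈ Λ := by
    rintro t ⟨h1, h2⟩
    refine ⟨h2, ?_⟩
    rw [Complex.conj_conj]
    exact h1
  have hI : u + Complex.I • v = z := by
    rw [hu, hv, smul_smul]
    have : Complex.I * (1 / (2 * Complex.I)) = 1 / 2 := by
      field_simp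
    rw [this, ← smul_add]
    have : z + w + (z - w) = (2 : ℂ) • z := by
      rw [two_smul]; abel
    rw [this, smul_smul]
    norm_num
  have hI' : u + (conj Complex.I) • v = w := by
    rw [hu, hv, smul_smul, Complex.conj_I]
    have : -Complex.I * (1 / (2 * Complex.I)) = -(1 / 2) := by
      field_simp
    rw [this, neg_smul, ← sub_eq_add_neg, ← smul_sub]
    have : z + w - (z - w) = (2 : ℂ) • w := by
      rw [two_smul]; abel
    rw [this, smul_smul]
    norm_num
  have h0Λ : (0 : ℂ) ∈ Λ := by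
    have : u ∈ ball z0 ρ := by
      have := (convex_ball z0 ρ) hz hw (a := 1 / 2) (b := 1 / 2) (by norm_num) (by norm_num)
        (by norm_num)
      rw [hu, smul_add]
      convert this using 2
      · funext i; simp
      · funext i; simp
    refine ⟨?_, ?_⟩ <;> simpa using this
  have hIΛ : Complex.I ∈ Λ := ⟨by rw [hI]; exact hz, by rw [hI']; exact hw⟩
  have hd2 : DifferentiableOn ℂ (fun t => conj (P (u + conj t • v, cj (u + t • v)))) Λ := by
    intro t ht
    have h1 : DifferentiableAt ℂ (fun t => P (u + t • v, cj (u + (conj t) • v))) (conj t) :=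
      (hd1 _ (hsym t ht)).differentiableAt (ho.mem_nhds (hsym t ht))
    have h2 := h1.conj_conj
    rw [Complex.conj_conj] at h2
    refine (h2.congr_of_eventuallyEq ?_).differentiableWithinAt
    filter_upwards with s
    simp
  have key := eq_zero_of_real (g := fun t => P (u + t • v, cj (u + (conj t) • v)) -
    conj (P (u + conj t • v, cj (u + t • v)))) ho hc (hd1.sub hd2) h0Λ (by
      have h1 : ∀ᶠ t : ℝ in 𝓝 0, (t : ℂ) ∈ Λ :=
        (Complex.continuous_ofReal.tendsto' 0 0 (by simp)).eventually (ho.mem_nhds h0Λ)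
      filter_upwards [h1] with t ht
      rw [Complex.conj_ofReal, h.eq _ ht.1, Complex.conj_ofReal, sub_self]) _ hIΛ
  simp only [hI, hI'] at key
  have : P (z, cj w) = conj (P (w, cj z)) := sub_eq_zero.1 key
  rw [this, Complex.conj_conj]

/-- polarisation of a representation on an affine subspace -/
lemma Loc.rep (h : Loc p z0 ρ P) {d k : ℕ} (c : Fin n → ℂ)
    (L : (Fin d → ℂ) →ₗ[ℂ] (Fin n → ℂ)) (ε : Fin k → ℝ) (g : Fin k → (Fin d → ℂ) → ℂ)
    (hg : ∀ j, Differentiable ℂ (g j))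
    (hrep : ∀ x, p (c + L x) = ∑ j, ε j * Complex.normSq (g j x))
    {x y : Fin d → ℂ} (hx : c + L x ∈ ball z0 ρ) (hy : c + L y ∈ ball z0 ρ) :
    P (c + L x, cj (c + L y)) = ∑ j, (ε j : ℂ) * (g j x * conj (g j y)) := by
  set u : Fin d → ℂ := (1 / 2 : ℂ) • (x + y) with hu
  set v : Fin d → ℂ := (1 / (2 * Complex.I) : ℂ) • (x - y) with hv
  have hI : u + Complex.I • v = x := by
    rw [hu, hv, smul_smul]
    have : Complex.I * (1 / (2 * Complex.I)) = 1 / 2 := by
      field_simp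
    rw [this, ← smul_add]
    have : x + y + (x - y) = (2 : ℂ) • x := by
      rw [two_smul]; abel
    rw [this, smul_smul]
    norm_num
  have hI' : u + (conj Complex.I) • v = y := by
    rw [hu, hv, smul_smul, Complex.conj_I]
    have : -Complex.I * (1 / (2 * Complex.I)) = -(1 / 2) := by
      field_simp
    rw [this, neg_smul, ← sub_eq_add_neg, ← smul_sub]
    have : x + y - (x - y) = (2 : ℂ) • y := by
      rw [two_smul]; abel
    rw [this, smul_smul]
    norm_num
  have hlin : ∀ t : ℂ, c + L (u + t • v) = (c + L u) + t • L v := by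
    intro t
    rw [map_add L u (t • v), map_smul L t v, add_assoc]
  have hξ : Differentiable ℂ (fun t : ℂ => (c + L u) + t • L v) := by fun_prop
  obtain ⟨ho, hc⟩ := dom_line z0 ρ (c + L u) (L v) (c + L u) (L v)
  have hd1 := h.hol hξ hξ
  set Λ := {t : ℂ | (c + L u) + t • L v ∈ ball z0 ρ ∧ (c + L u) + (conj t) • L v ∈ ball z0 ρ}
    with hΛ
  have hIΛ : Complex.I ∈ Λ := by
    refine ⟨?_, ?_⟩
    · rw [← hlin, hI]; exact hx
    · rw [← hlin, hI']; exact hy
  have h0Λ : (0 : ℂ) ∈ Λ := by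
    have h1 : (-Complex.I) ∈ Λ := by
      refine ⟨?_, ?_⟩
      · rw [← Complex.conj_I, ← hlin, hI']; exact hy
      · rw [map_neg, Complex.conj_I, neg_neg, ← hlin, hI]; exact hx
    have := hc hIΛ h1 (a := 1 / 2) (b := 1 / 2) (by norm_num) (by norm_num) (by norm_num)
    simpa using this
  have hd2 : DifferentiableOn ℂ (fun t => ∑ j, (ε j : ℂ) * (g j (u + t • v) *
      conj (g j (u + conj t • v)))) Λ := by
    refine DifferentiableOn.fun_sum fun j _ => ?_
    refine DifferentiableOn.const_mul (DifferentiableOn.mul ?_ ?_) _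
    · exact ((hg j).comp (by fun_prop : Differentiable ℂ (fun t : ℂ => u + t • v))).differentiableOn
    · intro t _
      have h1 : DifferentiableAt ℂ (fun t => g j (u + t • v)) (conj t) :=
        ((hg j).comp (by fun_prop : Differentiable ℂ (fun t : ℂ => u + t • v))) _
      have h2 := h1.conj_conj
      rw [Complex.conj_conj] at h2
      exact h2.differentiableWithinAt
  have key := eq_zero_of_real (g := fun t => P ((c + L u) + t • L v, cj ((c + L u) +
    (conj t) • L v)) - ∑ j, (ε j : ℂ) * (g j (u + t • v) * conj (g j (u + conj t • v))))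
    ho hc (hd1.sub hd2) h0Λ (by
      have h1 : ∀ᶠ t : ℝ in 𝓝 0, (t : ℂ) ∈ Λ :=
        (Complex.continuous_ofReal.tendsto' 0 0 (by simp)).eventually (ho.mem_nhds h0Λ)
      filter_upwards [h1] with t ht
      rw [Complex.conj_ofReal, h.eq _ ht.1, ← hlin, hrep, sub_eq_zero]
      push_cast
      refine Finset.sum_congr rfl fun j _ => ?_
      rw [Complex.mul_conj]) _ hIΛ
  simp only [← hlin, hI, hI'] at key
  exact sub_eq_zero.1 key

end

end Pool.Agent.Sx28.HR
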